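import Mathlib

/-!
# Combinations of `log (1 + i z)` and `z log (1 + i z)` of given order

Nodes `w_i = i + 1`, `i < s`.  For every integer vector `t` of length `2 s` there are integers `a_i, b_i`, `i < s`, such that
the power series `∑ (a_i + b_i z) log (1 + w_i z)` has the coefficients `Δ t_k` at `z^k`, `1 ≤ k ≤ 2 s`, with explicit bounds.
-/

set_option autoImplicit false

namespace Pool.Agent.Helper81.FE

open Polynomial Finset

/-- The node number `i`. -/
def nd (i : ℕ) : ℤ := (i : ℤ) + 1

theorem nd_pos (i : ℕ) : 0 < nd i := by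
  unfold nd
  positivity

theorem nd_inj {i j : ℕ} (h : nd i = nd j) : i = j := by
  unfold nd at h
  omega

/-- The nodal polynomial without the node `i`. -/
noncomputable def NN (s i : ℕ) : ℤ[X] := ∏ j ∈ (range s).erase i, (X - C (nd j))

/-- Its value at the node `i`. -/
def dd (s i : ℕ) : ℤ := ∏ j ∈ (range s).erase i, (nd i - nd j)

theorem NN_eval (s i : ℕ) : (NN s i).eval (nd i) = dd s i := by
  simp [NN, dd, eval_prod]

theorem NN_eval_ne {s i j : ℕ} (hj : j < s) (h : j ≠ i) : (NN s i).eval (nd j) = 0 := by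
  rw [NN, eval_prod]
  exact prod_eq_zero (mem_erase.mpr ⟨h, mem_range.mpr hj⟩) (by simp)

theorem dd_ne (s i : ℕ) : dd s i ≠ 0 := by
  unfold dd
  rw [prod_ne_zero_iff]
  intro j hj h
  have h1 : nd i = nd j := by linarith
  exact (mem_erase.mp hj).1 (nd_inj h1).symm

theorem NN_natDegree {s i : ℕ} (hi : i < s) : (NN s i).natDegree = s - 1 := by
  unfold NN
  rw [natDegree_prod_of_monic _ _ (fun j _ => monic_X_sub_C _),
    sum_congr rfl (fun j _ => natDegree_X_sub_C (nd j)), sum_const, card_erase_of_mem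
      (mem_range.mpr hi), card_range, smul_eq_mul, mul_one]

theorem NN_monic (s i : ℕ) : (NN s i).Monic := monic_prod_of_monic _ _ (fun j _ => monic_X_sub_C _)

theorem dd_formula (i : ℕ) : ∀ s, i + 1 ≤ s →
    dd s i = (-1) ^ (s - 1 - i) * ((i.factorial : ℤ) * ((s - 1 - i).factorial : ℤ)) := by
  intro s hs
  induction s, hs using Nat.le_induction with
  | base =>
    have e : (range (i + 1)).erase i = range i := by
      ext x
      simp only [mem_erase, mem_range]
      omega
    unfold dd
    rw [e]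
    have h1 : ∀ j ∈ range i, nd i - nd j = ((i - 1 - j : ℕ) : ℤ) + 1 := by
      intro j hj
      have := mem_range.mp hj
      unfold nd
      omega
    rw [prod_congr rfl h1, prod_range_reflect (fun j => ((j : ℕ) : ℤ) + 1) i]
    have h2 : (i.factorial : ℤ) = ∏ j ∈ range i, ((j : ℤ) + 1) := by
      rw [← prod_range_add_one_eq_factorial]
      push_cast
      rfl
    rw [← h2]
    simp
  | succ s hs ih =>
    have e : (range (s + 1)).erase i = insert s ((range s).erase i) := by
      ext x
      simp only [mem_erase, mem_range, mem_insert]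
      omega
    have e1 : s ∉ (range s).erase i := by simp
    have h1 : dd (s + 1) i = (nd i - nd s) * dd s i := by
      unfold dd
      rw [e, prod_insert e1]
    rw [h1, ih]
    have h2 : s + 1 - 1 - i = (s - 1 - i) + 1 := by omega
    rw [h2, Nat.factorial_succ]
    have h3 : nd i - nd s = -(((s - 1 - i : ℕ) : ℤ) + 1) := by
      unfold nd
      omega
    rw [h3]
    push_cast
    ring

theorem dd_dvd {s i : ℕ} (hi : i < s) : dd s i ∣ (s.factorial : ℤ) := by
  rw [dd_formula i s hi]
  have h1 : i.factorial * (s - 1 - i).factorial ∣ (s - 1).factorial :=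
    Nat.factorial_mul_factorial_dvd_factorial (by omega)
  have h2 : (s - 1).factorial ∣ s.factorial := Nat.factorial_dvd_factorial (by omega)
  have h3 : ((i.factorial : ℤ) * ((s - 1 - i).factorial : ℤ)) ∣ (s.factorial : ℤ) := by
    exact_mod_cast h1.trans h2
  have h4 : IsUnit ((-1 : ℤ) ^ (s - 1 - i)) := by
    exact (isUnit_one.neg).pow _
  exact (h4.mul_left_dvd).mpr h3

theorem nd_dvd {s i : ℕ} (hi : i < s) : nd i ∣ (s.factorial : ℤ) := by
  have h1 : i + 1 ∣ s.factorial := Nat.dvd_factorial (by omega) (by omega)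
  have h2 : nd i = ((i + 1 : ℕ) : ℤ) := by unfold nd; push_cast; ring
  rw [h2]
  exact_mod_cast h1

/-! ### The pairing -/

theorem eval_der (n : ℕ) (rho : ℤ[X]) (hdeg : rho.natDegree < n) (w : ℤ) :
    w * rho.derivative.eval w = ∑ j ∈ range n, (j : ℤ) * rho.coeff j * w ^ j := by
  rw [derivative_eval, sum_over_range' rho (by simp) n hdeg, mul_sum]
  apply sum_congr rfl
  intro j _
  rcases j with _ | j
  · simp
  · simp only [Nat.add_sub_cancel]
    rw [pow_succ]
    ring

/-- The moments. -/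
def mom (s : ℕ) (al be : ℕ → ℚ) (j : ℕ) : ℚ := ∑ i ∈ range s, (nd i : ℚ) ^ j * ((j : ℚ) * be i + al i)

theorem star (n s : ℕ) (al be : ℕ → ℚ) (rho : ℤ[X]) (hdeg : rho.natDegree < n) :
    ∑ i ∈ range s, (al i * ((rho.eval (nd i) : ℤ) : ℚ) +
      be i * ((((nd i) * rho.derivative.eval (nd i) : ℤ) : ℚ) - (rho.coeff 0 : ℚ))) =
    ∑ j ∈ range n, (rho.coeff j : ℚ) * mom s al be j - (rho.coeff 0 : ℚ) * ∑ i ∈ range s, be i := by
  have h1 : ∑ j ∈ range n, (rho.coeff j : ℚ) * mom s al be j =
      ∑ i ∈ range s, ∑ j ∈ range n, (rho.coeff j : ℚ) * ((nd i : ℚ) ^ j * ((j : ℚ) * be i + al i)) := by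
    unfold mom
    simp_rw [mul_sum]
    rw [sum_comm]
  rw [h1, mul_sum, ← sum_sub_distrib]
  apply sum_congr rfl
  intro i _
  rw [eval_der n rho hdeg, eval_eq_sum_range' hdeg]
  push_cast
  have h2 : ∑ j ∈ range n, (rho.coeff j : ℚ) * ((nd i : ℚ) ^ j * ((j : ℚ) * be i + al i)) =
      al i * (∑ j ∈ range n, (rho.coeff j : ℚ) * (nd i : ℚ) ^ j) +
      be i * (∑ j ∈ range n, (j : ℚ) * (rho.coeff j : ℚ) * (nd i : ℚ) ^ j) := by
    rw [mul_sum, mul_sum, ← sum_add_distrib]
    apply sum_congr rfl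
    intro j _
    ring
  rw [h2]
  ring

/-- The value of the functional on a polynomial, from the moments. -/
def Phi (s : ℕ) (al be : ℕ → ℚ) (rho : ℤ[X]) : ℚ :=
  ∑ j ∈ range (2 * s), (rho.coeff j : ℚ) * mom s al be j - (rho.coeff 0 : ℚ) * ∑ i ∈ range s, be i

/-- First test polynomial. -/
noncomputable def KK (s i : ℕ) : ℤ[X] := (X - C (nd i)) * (NN s i * NN s i)

theorem test_one (s : ℕ) (al be : ℕ → ℚ) (i : ℕ) (hi : i < s) :
    be i * ((nd i : ℚ) * (dd s i : ℚ) ^ 2) +
      (nd i : ℚ) * ((NN s i).coeff 0 : ℚ) ^ 2 * (∑ j ∈ range s, be j) = Phi s al be (KK s i) := by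
  have hdeg : (KK s i).natDegree < 2 * s := by
    unfold KK
    rw [(monic_X_sub_C _).natDegree_mul ((NN_monic s i).mul (NN_monic s i)),
      (NN_monic s i).natDegree_mul (NN_monic s i), NN_natDegree hi, natDegree_X_sub_C]
    omega
  unfold Phi
  rw [← star (2 * s) s al be (KK s i) hdeg]
  have h0 : (KK s i).coeff 0 = -(nd i * (NN s i).coeff 0 ^ 2) := by
    unfold KK
    rw [mul_coeff_zero, mul_coeff_zero, coeff_sub, coeff_X_zero, coeff_C_zero]
    ring
  have h1 : ∀ j ∈ range s, (KK s i).eval (nd j) = 0 := by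
    intro j hj
    unfold KK
    by_cases h : j = i
    · subst h
      simp
    · simp [NN_eval_ne (mem_range.mp hj) h]
  have hder : (KK s i).derivative = NN s i * NN s i +
      (X - C (nd i)) * (derivative (NN s i) * NN s i + NN s i * derivative (NN s i)) := by
    unfold KK
    rw [derivative_mul, derivative_mul]
    simp
  have h2 : ∀ j ∈ range s, (KK s i).derivative.eval (nd j) = if j = i then dd s i ^ 2 else 0 := by
    intro j hj
    rw [hder]
    by_cases h : j = i
    · subst h
      simp [NN_eval]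
      ring
    · simp [NN_eval_ne (mem_range.mp hj) h, h]
  have h3 : ∀ j ∈ range s, (al j * (((KK s i).eval (nd j) : ℤ) : ℚ) +
      be j * ((((nd j) * (KK s i).derivative.eval (nd j) : ℤ) : ℚ) - ((KK s i).coeff 0 : ℚ))) =
      (if j = i then be i * ((nd i : ℚ) * (dd s i : ℚ) ^ 2) else 0) +
      (nd i : ℚ) * ((NN s i).coeff 0 : ℚ) ^ 2 * be j := by
    intro j hj
    rw [h1 j hj, h2 j hj, h0]
    by_cases h : j = i
    · subst h
      simp
      ring
    · simp [h]
      ring
  rw [sum_congr rfl h3, sum_add_distrib, ← mul_sum, sum_ite_eq' (range s) i]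
  simp [hi]

theorem test_two (s : ℕ) (al be : ℕ → ℚ) (i : ℕ) (hi : i < s) :
    al i * (dd s i : ℚ) ^ 2 +
      be i * (2 * (dd s i : ℚ) * ((nd i * (NN s i).derivative.eval (nd i) : ℤ) : ℚ)) -
      ((NN s i).coeff 0 : ℚ) ^ 2 * (∑ j ∈ range s, be j) = Phi s al be (NN s i * NN s i) := by
  have hdeg : (NN s i * NN s i).natDegree < 2 * s := by
    rw [(NN_monic s i).natDegree_mul (NN_monic s i), NN_natDegree hi]
    omega
  unfold Phi
  rw [← star (2 * s) s al be (NN s i * NN s i) hdeg]
  have h0 : (NN s i * NN s i).coeff 0 = (NN s i).coeff 0 ^ 2 := by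
    rw [mul_coeff_zero]
    ring
  have h1 : ∀ j ∈ range s, (NN s i * NN s i).eval (nd j) = if j = i then dd s i ^ 2 else 0 := by
    intro j hj
    by_cases h : j = i
    · subst h
      simp [NN_eval]
      ring
    · simp [NN_eval_ne (mem_range.mp hj) h, h]
  have h2 : ∀ j ∈ range s, (NN s i * NN s i).derivative.eval (nd j) =
      if j = i then 2 * dd s i * (NN s i).derivative.eval (nd i) else 0 := by
    intro j hj
    rw [derivative_mul]
    by_cases h : j = i
    · subst h
      simp [NN_eval]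
      ring
    · simp [NN_eval_ne (mem_range.mp hj) h, h]
  have h3 : ∀ j ∈ range s, (al j * (((NN s i * NN s i).eval (nd j) : ℤ) : ℚ) +
      be j * ((((nd j) * (NN s i * NN s i).derivative.eval (nd j) : ℤ) : ℚ) -
        ((NN s i * NN s i).coeff 0 : ℚ))) =
      (if j = i then al i * (dd s i : ℚ) ^ 2 +
        be i * (2 * (dd s i : ℚ) * ((nd i * (NN s i).derivative.eval (nd i) : ℤ) : ℚ)) else 0) -
      ((NN s i).coeff 0 : ℚ) ^ 2 * be j := by
    intro j hj
    rw [h1 j hj, h2 j hj, h0]
    by_cases h : j = i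
    · subst h
      simp
      ring
    · simp [h]
      ring
  rw [sum_congr rfl h3, sum_sub_distrib, ← mul_sum, sum_ite_eq' (range s) i]
  simp [hi]

end Pool.Agent.Helper81.FE
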