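import Mathlib
import Pool.Agent.Helper81.FE.Lin

/-!
# The coefficients of a combination of logarithms
-/

set_option autoImplicit false

namespace Pool.Agent.Helper81.FE

open Finset

/-! ### The coefficient identity -/

theorem coef_identity (s : ℕ) (hs : 1 ≤ s) (a b t : ℕ → ℤ) (Δ D : ℤ) (Dk : ℕ → ℤ)
    (hD : ∀ k < 2 * s, ((k : ℤ) + 1) * Dk k = D)
    (h1 : ∑ i ∈ range s, nd i * a i = Δ * t 1)
    (h2 : ∀ j, 1 ≤ j → j < 2 * s →
      ∑ i ∈ range s, nd i ^ j * ((j : ℤ) * (nd i * a i) - ((j : ℤ) + 1) * b i) =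
        (-1) ^ j * ((j : ℤ) * ((j : ℤ) + 1)) * (Δ * t (j + 1))) (P : ℤ) :
    P ^ (2 * s + 1) ∣ ∑ i ∈ range s, (a i + b i * P) *
      ∑ k ∈ range (2 * s), (-1) ^ k * Dk k * (nd i * P) ^ (k + 1) -
      D * (Δ * ∑ k ∈ range (2 * s), t (k + 1) * P ^ (k + 1)) := by
  have e1 : ∑ i ∈ range s, (a i + b i * P) *
      ∑ k ∈ range (2 * s), (-1) ^ k * Dk k * (nd i * P) ^ (k + 1) =
      ∑ k ∈ range (2 * s), (-1) ^ k * Dk k * P ^ (k + 1) * (∑ i ∈ range s, nd i ^ (k + 1) * a i) +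
      ∑ k ∈ range (2 * s), (-1) ^ k * Dk k * P ^ (k + 2) *
        (∑ i ∈ range s, nd i ^ (k + 1) * b i) := by
    simp_rw [mul_sum]
    rw [sum_comm, ← sum_add_distrib]
    apply sum_congr rfl
    intro k _
    rw [← sum_add_distrib]
    apply sum_congr rfl
    intro i _
    ring
  rw [e1]
  obtain ⟨n, hn⟩ : ∃ n, 2 * s = n + 1 := ⟨2 * s - 1, by omega⟩
  rw [hn] at hD h2 ⊢
  rw [sum_range_succ' (fun k => (-1) ^ k * Dk k * P ^ (k + 1) *
    (∑ i ∈ range s, nd i ^ (k + 1) * a i)), sum_range_succ (fun k => (-1) ^ k * Dk k * P ^ (k + 2) *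
    (∑ i ∈ range s, nd i ^ (k + 1) * b i)), sum_range_succ' (fun k => t (k + 1) * P ^ (k + 1))]
  have key : ∀ k ∈ range n, (-1) ^ (k + 1) * Dk (k + 1) * P ^ (k + 1 + 1) *
      (∑ i ∈ range s, nd i ^ (k + 1 + 1) * a i) + (-1) ^ k * Dk k * P ^ (k + 2) *
      (∑ i ∈ range s, nd i ^ (k + 1) * b i) = D * Δ * (t (k + 1 + 1) * P ^ (k + 1 + 1)) := by
    intro k hk
    have hk' := mem_range.mp hk
    have g1 := h2 (k + 1) (by omega) (by omega)
    have g2 := hD (k + 1) (by omega)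
    have g3 := hD k (by omega)
    have g4 : ∑ i ∈ range s, nd i ^ (k + 1) * (((k + 1 : ℕ) : ℤ) * (nd i * a i) -
        (((k + 1 : ℕ) : ℤ) + 1) * b i) = ((k : ℤ) + 1) * (∑ i ∈ range s, nd i ^ (k + 1 + 1) * a i) -
        ((k : ℤ) + 2) * (∑ i ∈ range s, nd i ^ (k + 1) * b i) := by
      rw [mul_sum, mul_sum, ← sum_sub_distrib]
      apply sum_congr rfl
      intro i _
      push_cast
      ring
    rw [g4] at g1
    push_cast at g1 g2
    have g5 : (((k : ℤ) + 1) * ((k : ℤ) + 2)) * ((-1) ^ (k + 1) * Dk (k + 1) *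
        (∑ i ∈ range s, nd i ^ (k + 1 + 1) * a i) + (-1) ^ k * Dk k *
        (∑ i ∈ range s, nd i ^ (k + 1) * b i)) =
        (((k : ℤ) + 1) * ((k : ℤ) + 2)) * (D * Δ * t (k + 1 + 1)) := by
      have g6 : ((-1 : ℤ) ^ (k + 1)) * ((-1) ^ (k + 1)) = 1 := by
        rw [← mul_pow]
        norm_num
      have g7 : (-1 : ℤ) ^ (k + 1) = -((-1) ^ k) := by
        rw [pow_succ]
        ring
      set A := ∑ i ∈ range s, nd i ^ (k + 1 + 1) * a i
      set B := ∑ i ∈ range s, nd i ^ (k + 1) * b i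
      linear_combination ((-1) ^ (k + 1) * D) * g1 + (-1) ^ (k + 1) * ((k : ℤ) + 1) * A * g2 +
        (-1) ^ k * ((k : ℤ) + 2) * B * g3 + (D * (((k : ℤ) + 1) * ((k : ℤ) + 2)) * Δ * t (k + 1 + 1)) * g6
        - (D * ((k : ℤ) + 2) * B) * g7
    have g8 : (((k : ℤ) + 1) * ((k : ℤ) + 2)) ≠ 0 := by positivity
    have g9 := mul_left_cancel₀ g8 g5
    linear_combination P ^ (k + 2) * g9
  have e2 : ∑ k ∈ range n, (-1) ^ (k + 1) * Dk (k + 1) * P ^ (k + 1 + 1) *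
      (∑ i ∈ range s, nd i ^ (k + 1 + 1) * a i) + ∑ k ∈ range n, (-1) ^ k * Dk k * P ^ (k + 2) *
      (∑ i ∈ range s, nd i ^ (k + 1) * b i) =
      D * Δ * ∑ k ∈ range n, t (k + 1 + 1) * P ^ (k + 1 + 1) := by
    rw [← sum_add_distrib, sum_congr rfl key, mul_sum]
  have e3 : ∑ i ∈ range s, nd i ^ (0 + 1) * a i = Δ * t 1 := by
    rw [← h1]
    exact sum_congr rfl (fun i _ => by rw [zero_add, pow_one])
  have e4 := hD 0 (by omega)
  refine ⟨(-1) ^ n * Dk n * (∑ i ∈ range s, nd i ^ (n + 1) * b i), ?_⟩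
  rw [e3]
  have e5 : Dk 0 = D := by
    rw [← e4]
    push_cast
    ring
  rw [e5]
  linear_combination e2

end Pool.Agent.Helper81.FE
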