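import Mathlib

/-!
# A truncated logarithm modulo a prime power

For a prime `Q` and `u = 1` modulo `Q`, the integer `E u = (u ^ (Q ^ N) - 1) / Q ^ N` is additive modulo `Q ^ N`, has the same
divisibility by powers of `Q` as `u - 1`, and is the truncated logarithm series of `u` up to a factor prime to `Q`.
-/

set_option autoImplicit false

namespace Pool.Agent.Helper81.FE

open Finset

section log

variable {Q : ℕ} (hQ : Q.Prime) (hodd : Odd Q)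

include hQ in
theorem not_dvd_of_sub_one {u : ℤ} (hu : (Q : ℤ) ∣ u - 1) : ¬ (Q : ℤ) ∣ u := by
  intro h
  have h1 : (Q : ℤ) ∣ 1 := by
    have := dvd_sub h hu
    simpa using this
  have h2 : Q ∣ 1 := by exact_mod_cast h1
  exact hQ.one_lt.ne' (Nat.dvd_one.mp h2)

include hQ hodd in
theorem pow_dvd_iff (N m : ℕ) {u : ℤ} (hu : (Q : ℤ) ∣ u - 1) :
    (Q : ℤ) ^ (m + N) ∣ u ^ (Q ^ N) - 1 ↔ (Q : ℤ) ^ m ∣ u - 1 := by
  have hx := not_dvd_of_sub_one hQ hu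
  have h1 := Int.emultiplicity_pow_sub_pow hQ hodd (x := u) (y := 1) hu hx (Q ^ N)
  rw [one_pow] at h1
  have h2 : emultiplicity Q (Q ^ N) = N :=
    emultiplicity_pow_self hQ.ne_zero (Nat.Prime.prime hQ).not_isUnit N
  rw [pow_dvd_iff_le_emultiplicity, pow_dvd_iff_le_emultiplicity, h1, h2]
  push_cast
  exact ENat.add_le_add_iff_right (ENat.natCast_ne_top N)

/-- The truncated logarithm. -/
def EE (Q N : ℕ) (u : ℤ) : ℤ := (u ^ (Q ^ N) - 1) / (Q : ℤ) ^ N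

include hQ hodd in
theorem EE_spec (N : ℕ) {u : ℤ} (hu : (Q : ℤ) ∣ u - 1) :
    (Q : ℤ) ^ N * EE Q N u = u ^ (Q ^ N) - 1 := by
  unfold EE
  apply Int.mul_ediv_cancel'
  have := (pow_dvd_iff hQ hodd N 0 hu).mpr (by simp)
  simpa using this

include hQ hodd in
theorem EE_dvd_iff (N m : ℕ) {u : ℤ} (hu : (Q : ℤ) ∣ u - 1) :
    (Q : ℤ) ^ m ∣ EE Q N u ↔ (Q : ℤ) ^ m ∣ u - 1 := by
  rw [← pow_dvd_iff hQ hodd N m hu, ← EE_spec hQ hodd N hu, pow_add, mul_comm]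
  have h0 : (Q : ℤ) ^ N ≠ 0 := pow_ne_zero _ (by exact_mod_cast hQ.ne_zero)
  exact (mul_dvd_mul_iff_left h0).symm

theorem sub_one_mul {q u v : ℤ} (hu : q ∣ u - 1) (hv : q ∣ v - 1) : q ∣ u * v - 1 := by
  have : u * v - 1 = (u - 1) * v + (v - 1) := by ring
  rw [this]
  exact dvd_add (hu.mul_right v) hv

theorem sub_one_pow {q u : ℤ} (hu : q ∣ u - 1) (n : ℕ) : q ∣ u ^ n - 1 := by
  induction n with
  | zero => simp
  | succ n ih =>
    rw [pow_succ]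
    exact sub_one_mul ih hu

theorem sub_one_prod {q : ℤ} {ι : Type*} [DecidableEq ι] (S : Finset ι) (f : ι → ℤ)
    (hf : ∀ i ∈ S, q ∣ f i - 1) : q ∣ (∏ i ∈ S, f i) - 1 := by
  induction S using Finset.induction_on with
  | empty => simp
  | insert a S ha ih =>
    rw [prod_insert ha]
    exact sub_one_mul (hf a (mem_insert_self a S)) (ih (fun i hi => hf i (mem_insert_of_mem hi)))

include hQ hodd in
theorem EE_mul (N : ℕ) {u v : ℤ} (hu : (Q : ℤ) ∣ u - 1) (hv : (Q : ℤ) ∣ v - 1) :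
    EE Q N (u * v) ≡ EE Q N u + EE Q N v [ZMOD (Q : ℤ) ^ N] := by
  have h1 := EE_spec hQ hodd N hu
  have h2 := EE_spec hQ hodd N hv
  have h3 := EE_spec hQ hodd N (sub_one_mul hu hv)
  have h0 : (Q : ℤ) ^ N ≠ 0 := pow_ne_zero _ (by exact_mod_cast hQ.ne_zero)
  have h4 : (Q : ℤ) ^ N * (EE Q N (u * v)) = (Q : ℤ) ^ N *
      (EE Q N u + EE Q N v + (Q : ℤ) ^ N * (EE Q N u * EE Q N v)) := by
    rw [h3, mul_pow]
    have e1 : u ^ Q ^ N = 1 + (Q : ℤ) ^ N * EE Q N u := by linarith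
    have e2 : v ^ Q ^ N = 1 + (Q : ℤ) ^ N * EE Q N v := by linarith
    rw [e1, e2]
    ring
  have h5 := mul_left_cancel₀ h0 h4
  rw [h5]
  apply Int.ModEq.symm
  rw [Int.modEq_iff_dvd]
  refine ⟨EE Q N u * EE Q N v, ?_⟩
  ring

theorem EE_one (Q N : ℕ) : EE Q N 1 = 0 := by simp [EE]

include hQ hodd in
theorem EE_pow (N : ℕ) {u : ℤ} (hu : (Q : ℤ) ∣ u - 1) (n : ℕ) :
    EE Q N (u ^ n) ≡ n * EE Q N u [ZMOD (Q : ℤ) ^ N] := by
  induction n with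
  | zero =>
    rw [pow_zero, EE_one]
    simp
  | succ n ih =>
    rw [pow_succ]
    refine (EE_mul hQ hodd N (sub_one_pow hu n) hu).trans ?_
    have : ((n + 1 : ℕ) : ℤ) * EE Q N u = n * EE Q N u + EE Q N u := by
      push_cast
      ring
    rw [this]
    exact ih.add_right _

include hQ hodd in
theorem EE_prod (N : ℕ) (s : ℕ) (f : ℕ → ℤ) (hf : ∀ i, (Q : ℤ) ∣ f i - 1) :
    EE Q N (∏ i ∈ range s, f i) ≡ ∑ i ∈ range s, EE Q N (f i) [ZMOD (Q : ℤ) ^ N] := by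
  induction s with
  | zero => simp [EE_one]
  | succ s ih =>
    rw [prod_range_succ, sum_range_succ]
    refine (EE_mul hQ hodd N (sub_one_prod _ _ (fun i _ => hf i)) (hf s)).trans ?_
    exact ih.add_right _

/-! ### Binomial coefficients -/

include hQ in
theorem coprime_small {k : ℕ} (h0 : 0 < k) (hk : k < Q) (N : ℕ) :
    IsCoprime ((Q : ℤ) ^ N) (k : ℤ) := by
  apply IsCoprime.pow_left
  rw [Nat.isCoprime_iff_coprime]
  exact (Nat.Prime.coprime_iff_not_dvd hQ).mpr (Nat.not_dvd_of_pos_of_lt h0 hk)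

include hQ in
theorem choose_congr (N : ℕ) (j : ℕ) (hj : j < Q) (hN : 1 ≤ N) :
    (Q : ℤ) ^ N ∣ ((Q ^ N - 1).choose j : ℤ) - (-1) ^ j := by
  induction j with
  | zero => simp
  | succ j ih =>
    have ih' := ih (by omega)
    have h1 := Nat.choose_succ_right_eq (Q ^ N - 1) j
    have hM : Q ≤ Q ^ N := Nat.le_self_pow (by omega) Q
    have h2 : ((Q ^ N - 1 - j : ℕ) : ℤ) = (Q : ℤ) ^ N - 1 - j := by
      have : ((Q ^ N - 1 - j : ℕ) : ℤ) = ((Q ^ N : ℕ) : ℤ) - 1 - j := by omega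
      rw [this]
      push_cast
      ring
    have h3 : ((Q ^ N - 1).choose (j + 1) : ℤ) * ((j : ℤ) + 1) =
        ((Q ^ N - 1).choose j : ℤ) * ((Q : ℤ) ^ N - 1 - j) := by
      rw [← h2]
      exact_mod_cast h1
    have h4 : (Q : ℤ) ^ N ∣ ((j + 1 : ℕ) : ℤ) *
        (((Q ^ N - 1).choose (j + 1) : ℤ) - (-1) ^ (j + 1)) := by
      obtain ⟨r, hr⟩ := ih'
      refine ⟨((Q ^ N - 1).choose j : ℤ) - ((j : ℤ) + 1) * r, ?_⟩
      push_cast
      have h5 : ((Q ^ N - 1).choose j : ℤ) = (Q : ℤ) ^ N * r + (-1) ^ j := by linarith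
      rw [pow_succ]
      linear_combination h3 - ((j : ℤ) + 1) * hr
    exact (coprime_small hQ (by omega) hj N).dvd_of_dvd_mul_left h4

theorem aux_pow_ge (L v : ℕ) (hL : 1 ≤ L) (hv : 1 ≤ v) : L + v ≤ (L + 1) ^ v := by
  induction v, hv using Nat.le_induction with
  | base => simp
  | succ v hv ih =>
    rw [pow_succ]
    nlinarith

include hQ in
theorem term_large (N L k : ℕ) (hL : 1 ≤ L) (hLQ : L + 1 ≤ Q) (hk : L ≤ k) (hkM : k ≤ Q ^ N)
    (x : ℤ) (hx : (Q : ℤ) ∣ x) :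
    (Q : ℤ) ^ N * (Q : ℤ) ^ L ∣ ((Q ^ N).choose k : ℤ) * x ^ k := by
  obtain ⟨v, k', hk', hkv⟩ := Nat.exists_eq_pow_mul_and_not_dvd (show k ≠ 0 by omega) Q hQ.ne_one
  have hk'0 : 0 < k' := Nat.pos_of_ne_zero (by
    rintro rfl
    exact hk' (dvd_zero _))
  have hQk : Q ^ v ≤ k := by
    rw [hkv]
    exact Nat.le_mul_of_pos_right _ hk'0
  have hvN : v ≤ N := (Nat.pow_le_pow_iff_right hQ.one_lt).mp (hQk.trans hkM)
  have h1 : (Q ^ N) * (Q ^ N - 1).choose (k - 1) = (Q ^ N).choose k * k := by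
    have hM : 0 < Q ^ N := Nat.pow_pos hQ.pos
    have := Nat.add_one_mul_choose_eq (Q ^ N - 1) (k - 1)
    rwa [Nat.sub_add_cancel hM, Nat.sub_add_cancel (by omega : 1 ≤ k)] at this
  have h2 : Q ^ (N - v) * (Q ^ N - 1).choose (k - 1) = (Q ^ N).choose k * k' := by
    have h3 : Q ^ v * (Q ^ (N - v) * (Q ^ N - 1).choose (k - 1)) =
        Q ^ v * ((Q ^ N).choose k * k') := by
      calc Q ^ v * (Q ^ (N - v) * (Q ^ N - 1).choose (k - 1)) =
          (Q ^ v * Q ^ (N - v)) * (Q ^ N - 1).choose (k - 1) := by ring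
        _ = Q ^ N * (Q ^ N - 1).choose (k - 1) := by rw [← pow_add, Nat.add_sub_cancel' hvN]
        _ = (Q ^ N).choose k * k := h1
        _ = (Q ^ N).choose k * (Q ^ v * k') := by rw [← hkv]
        _ = Q ^ v * ((Q ^ N).choose k * k') := by ring
    exact Nat.eq_of_mul_eq_mul_left (Nat.pow_pos hQ.pos) h3
  have h4 : Q ^ (N - v) ∣ (Q ^ N).choose k := by
    have h5 : Nat.Coprime (Q ^ (N - v)) k' :=
      Nat.Coprime.pow_left _ ((Nat.Prime.coprime_iff_not_dvd hQ).mpr hk')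
    exact h5.dvd_of_dvd_mul_right ⟨_, h2.symm⟩
  have h6 : L + v ≤ k := by
    rcases Nat.eq_zero_or_pos v with h | h
    · rw [h]
      omega
    · calc L + v ≤ (L + 1) ^ v := aux_pow_ge L v hL h
        _ ≤ Q ^ v := Nat.pow_le_pow_left hLQ v
        _ ≤ k := hQk
  have h7 : (Q : ℤ) ^ (N - v) * (Q : ℤ) ^ k ∣ ((Q ^ N).choose k : ℤ) * x ^ k := by
    apply mul_dvd_mul
    · exact_mod_cast h4
    · exact pow_dvd_pow_of_dvd hx k
  refine dvd_trans ?_ h7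
  rw [← pow_add, ← pow_add]
  exact pow_dvd_pow _ (by omega)

include hQ in
theorem term_small (N L k : ℕ) (hLN : L ≤ N) (hN : 1 ≤ N) (hk : k + 1 ≤ Q) (D Dk : ℤ)
    (hD : ((k : ℤ) + 1) * Dk = D) (x : ℤ) :
    (Q : ℤ) ^ N * (Q : ℤ) ^ L ∣ D * (((Q ^ N).choose (k + 1) : ℤ) * x ^ (k + 1)) -
      (Q : ℤ) ^ N * ((-1) ^ k * Dk * x ^ (k + 1)) := by
  have h1 : (Q : ℤ) ^ N * ((Q ^ N - 1).choose k : ℤ) =
      ((Q ^ N).choose (k + 1) : ℤ) * ((k : ℤ) + 1) := by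
    have hM : 0 < Q ^ N := Nat.pow_pos hQ.pos
    have := Nat.add_one_mul_choose_eq (Q ^ N - 1) k
    rw [Nat.sub_add_cancel hM] at this
    exact_mod_cast this
  have h2 : D * (((Q ^ N).choose (k + 1) : ℤ) * x ^ (k + 1)) -
      (Q : ℤ) ^ N * ((-1) ^ k * Dk * x ^ (k + 1)) =
      (Q : ℤ) ^ N * ((((Q ^ N - 1).choose k : ℤ) - (-1) ^ k) * (Dk * x ^ (k + 1))) := by
    rw [← hD]
    linear_combination (-(Dk * x ^ (k + 1))) * h1
  rw [h2]
  apply mul_dvd_mul_left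
  apply Dvd.dvd.mul_right
  exact (pow_dvd_pow _ hLN).trans (choose_congr hQ N k (by omega) hN)

include hQ in
theorem log_series (N n : ℕ) (hn : 1 ≤ n) (hnN : n + 1 ≤ N) (hnQ : n + 2 ≤ Q) (D : ℤ)
    (Dk : ℕ → ℤ) (hD : ∀ k < n, ((k : ℤ) + 1) * Dk k = D) (x : ℤ) (hx : (Q : ℤ) ∣ x) :
    (Q : ℤ) ^ N * (Q : ℤ) ^ (n + 1) ∣ D * ((1 + x) ^ (Q ^ N) - 1) -
      (Q : ℤ) ^ N * ∑ k ∈ range n, (-1) ^ k * Dk k * x ^ (k + 1) := by
  have hM : n ≤ Q ^ N := by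
    have hM' : Q ≤ Q ^ N := Nat.le_self_pow (by omega) Q
    omega
  have h1 : (1 + x) ^ (Q ^ N) - 1 = ∑ k ∈ range (Q ^ N), ((Q ^ N).choose (k + 1) : ℤ) * x ^ (k + 1) := by
    rw [add_comm, add_pow, sum_range_succ']
    simp only [one_pow, mul_one, pow_zero, Nat.choose_zero_right, Nat.cast_one]
    rw [add_sub_cancel_right]
    exact sum_congr rfl (fun k _ => by ring)
  rw [h1, ← sum_range_add_sum_Ico _ hM, mul_add, mul_sum, mul_sum, mul_sum]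
  have h2 : ∑ k ∈ range n, D * (((Q ^ N).choose (k + 1) : ℤ) * x ^ (k + 1)) +
      ∑ k ∈ Ico n (Q ^ N), D * (((Q ^ N).choose (k + 1) : ℤ) * x ^ (k + 1)) -
      ∑ k ∈ range n, (Q : ℤ) ^ N * ((-1) ^ k * Dk k * x ^ (k + 1)) =
      ∑ k ∈ range n, (D * (((Q ^ N).choose (k + 1) : ℤ) * x ^ (k + 1)) -
        (Q : ℤ) ^ N * ((-1) ^ k * Dk k * x ^ (k + 1))) +
      ∑ k ∈ Ico n (Q ^ N), D * (((Q ^ N).choose (k + 1) : ℤ) * x ^ (k + 1)) := by
    rw [sum_sub_distrib]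
    ring
  rw [h2]
  apply dvd_add
  · apply dvd_sum
    intro k hk
    have hk' := mem_range.mp hk
    exact term_small hQ N (n + 1) k hnN (by omega) (by omega) D (Dk k) (hD k hk') x
  · apply dvd_sum
    intro k hk
    have hk' := mem_Ico.mp hk
    apply Dvd.dvd.mul_left
    exact term_large hQ N (n + 1) (k + 1) (by omega) (by omega) (by omega) (by omega) x hx

include hQ hodd in
theorem EE_series (N n : ℕ) (hn : 1 ≤ n) (hnN : n + 1 ≤ N) (hnQ : n + 2 ≤ Q) (D : ℤ)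
    (Dk : ℕ → ℤ) (hD : ∀ k < n, ((k : ℤ) + 1) * Dk k = D) (x : ℤ) (hx : (Q : ℤ) ∣ x) :
    D * EE Q N (1 + x) ≡ ∑ k ∈ range n, (-1) ^ k * Dk k * x ^ (k + 1) [ZMOD (Q : ℤ) ^ (n + 1)] := by
  have hu : (Q : ℤ) ∣ (1 + x) - 1 := by
    rw [add_sub_cancel_left]
    exact hx
  have h1 := log_series hQ N n hn hnN hnQ D Dk hD x hx
  rw [← EE_spec hQ hodd N hu] at h1
  have h0 : (Q : ℤ) ^ N ≠ 0 := pow_ne_zero _ (by exact_mod_cast hQ.ne_zero)
  have h2 : D * ((Q : ℤ) ^ N * EE Q N (1 + x)) -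
      (Q : ℤ) ^ N * ∑ k ∈ range n, (-1) ^ k * Dk k * x ^ (k + 1) =
      (Q : ℤ) ^ N * (D * EE Q N (1 + x) - ∑ k ∈ range n, (-1) ^ k * Dk k * x ^ (k + 1)) := by ring
  rw [h2] at h1
  have h3 := (mul_dvd_mul_iff_left h0).mp h1
  exact (Int.modEq_iff_dvd.mpr h3).symm

end log

end Pool.Agent.Helper81.FE
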