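import Mathlib
import Pool.Agent.Helper81.FE.Lin

/-!
# Integral solutions with bounds
-/

set_option autoImplicit false

namespace Pool.Agent.Helper81.FE

open Polynomial Finset

theorem Phi_eq (s : ℕ) (hs : 1 ≤ s) (al be : ℕ → ℚ) (rho : ℤ[X]) (mu : ℕ → ℚ)
    (h0 : ∑ i ∈ range s, (be i - al i) = - mu 0)
    (hm : ∀ j, 1 ≤ j → j < 2 * s → mom s al be j = mu j) :
    Phi s al be rho = ∑ j ∈ range (2 * s), (rho.coeff j : ℚ) * mu j := by
  unfold Phi
  obtain ⟨n, hn⟩ : ∃ n, 2 * s = n + 1 := ⟨2 * s - 1, by omega⟩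
  rw [hn, sum_range_succ', sum_range_succ']
  have h1 : ∑ k ∈ range n, (rho.coeff (k + 1) : ℚ) * mom s al be (k + 1) =
      ∑ k ∈ range n, (rho.coeff (k + 1) : ℚ) * mu (k + 1) := by
    apply sum_congr rfl
    intro k hk
    rw [hm (k + 1) (by omega) (by have := mem_range.mp hk; omega)]
  rw [h1]
  have h2 : mom s al be 0 = ∑ i ∈ range s, al i := by
    unfold mom
    apply sum_congr rfl
    intro i _
    simp
  rw [h2]
  rw [sum_sub_distrib] at h0
  linear_combination (-(rho.coeff 0 : ℚ)) * h0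

theorem inj_zero (s : ℕ) (hs : 1 ≤ s) (al be : ℕ → ℚ)
    (h0 : ∑ i ∈ range s, (be i - al i) = 0)
    (hm : ∀ j, 1 ≤ j → j < 2 * s → mom s al be j = 0) :
    ∀ i < s, al i = 0 ∧ be i = 0 := by
  have hP : ∀ rho : ℤ[X], Phi s al be rho = 0 := by
    intro rho
    rw [Phi_eq s hs al be rho (fun _ => 0) (by simpa using h0) hm]
    simp
  set B := ∑ j ∈ range s, be j with hB
  have h1 : ∀ i ∈ range s, be i = -(((NN s i).coeff 0 : ℚ) / (dd s i : ℚ)) ^ 2 * B := by
    intro i hi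
    have h2 := test_one s al be i (mem_range.mp hi)
    rw [hP, ← hB] at h2
    have hw : (nd i : ℚ) ≠ 0 := by
      have := nd_pos i
      exact_mod_cast this.ne'
    have hd : (dd s i : ℚ) ≠ 0 := by exact_mod_cast dd_ne s i
    have h3 : (nd i : ℚ) * (be i * (dd s i : ℚ) ^ 2 + ((NN s i).coeff 0 : ℚ) ^ 2 * B) = 0 := by
      linear_combination h2
    have h4 := (mul_eq_zero.mp h3).resolve_left hw
    field_simp
    linear_combination h4
  have h5 : B * (1 + ∑ i ∈ range s, (((NN s i).coeff 0 : ℚ) / (dd s i : ℚ)) ^ 2) = 0 := by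
    have h6 : B = ∑ i ∈ range s, -(((NN s i).coeff 0 : ℚ) / (dd s i : ℚ)) ^ 2 * B := by
      rw [hB]
      exact sum_congr rfl h1
    rw [← sum_mul] at h6
    rw [sum_neg_distrib] at h6
    linear_combination h6
  have h7 : (0 : ℚ) < 1 + ∑ i ∈ range s, (((NN s i).coeff 0 : ℚ) / (dd s i : ℚ)) ^ 2 := by
    have : (0 : ℚ) ≤ ∑ i ∈ range s, (((NN s i).coeff 0 : ℚ) / (dd s i : ℚ)) ^ 2 :=
      sum_nonneg (fun i _ => sq_nonneg _)
    linarith
  have hB0 : B = 0 := (mul_eq_zero.mp h5).resolve_right h7.ne'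
  intro i hi
  have hbe : be i = 0 := by
    rw [h1 i (mem_range.mpr hi), hB0, mul_zero]
  refine ⟨?_, hbe⟩
  have h8 := test_two s al be i hi
  rw [hP, ← hB, hB0, hbe] at h8
  have hd : (dd s i : ℚ) ≠ 0 := by exact_mod_cast dd_ne s i
  have h9 : al i * (dd s i : ℚ) ^ 2 = 0 := by linear_combination h8
  exact (mul_eq_zero.mp h9).resolve_right (pow_ne_zero 2 hd)

/-- The linear map. -/
def Lmap (s : ℕ) : ((Fin s → ℚ) × (Fin s → ℚ)) →ₗ[ℚ] (Fin (2 * s) → ℚ) where
  toFun x j := if (j : ℕ) = 0 then ∑ i : Fin s, (x.2 i - x.1 i) else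
    ∑ i : Fin s, (nd i : ℚ) ^ (j : ℕ) * (((j : ℕ) : ℚ) * x.2 i + x.1 i)
  map_add' x y := by
    funext j
    simp only [Prod.snd_add, Prod.fst_add, Pi.add_apply]
    split_ifs
    · rw [← sum_add_distrib]
      exact sum_congr rfl (fun i _ => by ring)
    · rw [← sum_add_distrib]
      exact sum_congr rfl (fun i _ => by ring)
  map_smul' c x := by
    funext j
    simp only [Prod.smul_snd, Prod.smul_fst, Pi.smul_apply, smul_eq_mul, RingHom.id_apply]
    split_ifs
    · rw [mul_sum]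
      exact sum_congr rfl (fun i _ => by ring)
    · rw [mul_sum]
      exact sum_congr rfl (fun i _ => by ring)

/-- Extension by zero. -/
def ext0 {s : ℕ} (x : Fin s → ℚ) (i : ℕ) : ℚ := if h : i < s then x ⟨i, h⟩ else 0

theorem ext0_fin {s : ℕ} (x : Fin s → ℚ) (i : Fin s) : ext0 x i = x i := by
  unfold ext0
  rw [dif_pos i.isLt]

theorem exists_rat (s : ℕ) (hs : 1 ≤ s) (mu : ℕ → ℚ) : ∃ al be : ℕ → ℚ,
    ∑ i ∈ range s, (be i - al i) = - mu 0 ∧ ∀ j, 1 ≤ j → j < 2 * s → mom s al be j = mu j := by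
  have key : ∀ x : (Fin s → ℚ) × (Fin s → ℚ),
      (∑ i ∈ range s, (ext0 x.2 i - ext0 x.1 i) = ∑ i : Fin s, (x.2 i - x.1 i)) ∧
      ∀ j, mom s (ext0 x.1) (ext0 x.2) j =
        ∑ i : Fin s, (nd i : ℚ) ^ j * ((j : ℚ) * x.2 i + x.1 i) := by
    intro x
    constructor
    · rw [sum_range]
      exact sum_congr rfl (fun i _ => by rw [ext0_fin, ext0_fin])
    · intro j
      unfold mom
      rw [sum_range]
      exact sum_congr rfl (fun i _ => by rw [ext0_fin, ext0_fin])
  have hinj : Function.Injective (Lmap s) := by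
    rw [← LinearMap.ker_eq_bot, LinearMap.ker_eq_bot']
    intro x hx
    have h0 : ∑ i ∈ range s, (ext0 x.2 i - ext0 x.1 i) = 0 := by
      rw [(key x).1]
      have := congrFun hx ⟨0, by omega⟩
      simpa [Lmap] using this
    have hm : ∀ j, 1 ≤ j → j < 2 * s → mom s (ext0 x.1) (ext0 x.2) j = 0 := by
      intro j h1 h2
      rw [(key x).2]
      have := congrFun hx ⟨j, h2⟩
      have h3 : j ≠ 0 := by omega
      simpa [Lmap, h3] using this
    have h4 := inj_zero s hs _ _ h0 hm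
    ext i
    · have := (h4 i i.isLt).1
      rw [ext0_fin] at this
      simpa using this
    · have := (h4 i i.isLt).2
      rw [ext0_fin] at this
      simpa using this
  have hfin : Module.finrank ℚ ((Fin s → ℚ) × (Fin s → ℚ)) = Module.finrank ℚ (Fin (2 * s) → ℚ) := by
    rw [Module.finrank_prod, Module.finrank_fin_fun, Module.finrank_fin_fun]
    ring
  have hsurj := (LinearMap.injective_iff_surjective_of_finrank_eq_finrank hfin).mp hinj
  obtain ⟨x, hx⟩ := hsurj (fun j => if (j : ℕ) = 0 then - mu 0 else mu j)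
  refine ⟨ext0 x.1, ext0 x.2, ?_, ?_⟩
  · rw [(key x).1]
    have := congrFun hx ⟨0, by omega⟩
    simpa [Lmap] using this
  · intro j h1 h2
    rw [(key x).2]
    have := congrFun hx ⟨j, h2⟩
    have h3 : j ≠ 0 := by omega
    simpa [Lmap, h3] using this

end Pool.Agent.Helper81.FE
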