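import Mathlib
import Pool.Agent.Helper81.FE.Lin
import Pool.Agent.Helper81.FE.Lin2

/-!
# A small vector of exact order `2 l`

For every `l ≥ 1` there are integers `a_i, b_i`, `i < l`, of size `exp (O (l))` such that the power series
`∑ (a_i + b_i z) log (1 + w_i z)` starts with a multiple of `z ^ (2 l)` whose coefficient has only small prime factors and
divisors of a small number.
-/

set_option autoImplicit false

namespace Pool.Agent.Helper81.FE

open Polynomial Finset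

/-- The prescribed moments. -/
def tg (t : ℕ → ℤ) (j : ℕ) : ℤ := if j = 0 then - t 1 else (-1) ^ j * ((j : ℤ) * ((j : ℤ) + 1)) * t (j + 1)

/-- Binomial coefficient attached to a node. -/
def cb (l i : ℕ) : ℤ := (l.choose (i + 1) : ℤ)

theorem cb_nonneg (l i : ℕ) : 0 ≤ cb l i := by unfold cb; positivity

theorem dd_nd_cb {l i : ℕ} (hi : i < l) :
    (dd l i * (nd i * cb l i)) ^ 2 = ((l.factorial : ℤ)) ^ 2 := by
  have h1 := Nat.choose_mul_factorial_mul_factorial (show i + 1 ≤ l by omega)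
  have h2 : (l.choose (i + 1) : ℤ) * (((i : ℤ) + 1) * (i.factorial : ℤ)) * ((l - (i + 1)).factorial : ℤ) =
      (l.factorial : ℤ) := by
    rw [← h1, Nat.factorial_succ]
    push_cast
    ring
  have h3 : l - 1 - i = l - (i + 1) := by omega
  rw [dd_formula i l hi, h3]
  unfold nd cb
  have h4 : (((-1 : ℤ)) ^ (l - (i + 1))) ^ 2 = 1 := by
    rw [← pow_mul, mul_comm, pow_mul]
    norm_num
  calc ((-1 : ℤ) ^ (l - (i + 1)) * ((i.factorial : ℤ) * ((l - (i + 1)).factorial : ℤ)) *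
        (((i : ℤ) + 1) * (l.choose (i + 1) : ℤ))) ^ 2
      = (((-1 : ℤ)) ^ (l - (i + 1))) ^ 2 * ((l.choose (i + 1) : ℤ) * (((i : ℤ) + 1) *
        (i.factorial : ℤ)) * ((l - (i + 1)).factorial : ℤ)) ^ 2 := by ring
    _ = (l.factorial : ℤ) ^ 2 := by rw [h4, h2, one_mul]

theorem prod_nd (l : ℕ) : ∏ j ∈ range l, nd j = (l.factorial : ℤ) := by
  rw [← prod_range_add_one_eq_factorial]
  push_cast
  rfl

theorem n0_nd {l i : ℕ} (hi : i < l) : ((NN l i).coeff 0 * nd i) ^ 2 = ((l.factorial : ℤ)) ^ 2 := by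
  have h1 : (NN l i).coeff 0 = ∏ j ∈ (range l).erase i, (-nd j) := by
    rw [coeff_zero_eq_eval_zero]
    unfold NN
    rw [eval_prod]
    exact prod_congr rfl (fun j _ => by simp)
  have h2 : (∏ j ∈ (range l).erase i, (-nd j)) ^ 2 = (∏ j ∈ (range l).erase i, nd j) ^ 2 := by
    rw [← prod_pow, ← prod_pow]
    exact prod_congr rfl (fun j _ => by ring)
  rw [h1, mul_pow, h2, ← mul_pow, prod_erase_mul _ _ (mem_range.mpr hi), prod_nd]

theorem n0_sq {l i : ℕ} (hi : i < l) : (NN l i).coeff 0 ^ 2 = dd l i ^ 2 * cb l i ^ 2 := by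
  have h1 := dd_nd_cb hi
  have h2 := n0_nd hi
  have h3 : nd i ^ 2 ≠ 0 := pow_ne_zero 2 (nd_pos i).ne'
  apply mul_left_cancel₀ h3
  linear_combination h2 - h1

/-- The main factor. -/
def Sl (l : ℕ) : ℤ := 1 + ∑ i ∈ range l, cb l i ^ 2

/-- The weighted sum. -/
def Yl (l : ℕ) : ℤ := ∑ i ∈ range l, nd i * cb l i ^ 2

/-- The scaled harmonic sum. -/
def Har (l : ℕ) (La : ℤ) (i : ℕ) : ℤ := ∑ j ∈ (range l).erase i, La / (nd i - nd j)

theorem sub_dvd {l i j : ℕ} {La : ℤ} (hLa : ∀ k : ℕ, 1 ≤ k → k ≤ l → (k : ℤ) ∣ La) (hi : i < l)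
    (hj : j < l) (h : j ≠ i) : nd i - nd j ∣ La := by
  unfold nd
  rcases Nat.lt_or_gt_of_ne h with h1 | h1
  · have h2 := hLa (i - j) (by omega) (by omega)
    have h3 : (i : ℤ) + 1 - ((j : ℤ) + 1) = ((i - j : ℕ) : ℤ) := by omega
    rw [h3]
    exact h2
  · have h2 := hLa (j - i) (by omega) (by omega)
    have h3 : (i : ℤ) + 1 - ((j : ℤ) + 1) = -((j - i : ℕ) : ℤ) := by omega
    rw [h3]
    exact (neg_dvd).mpr h2

theorem der_har {l i : ℕ} {La : ℤ} (hLa : ∀ k : ℕ, 1 ≤ k → k ≤ l → (k : ℤ) ∣ La) (hi : i < l) :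
    La * (NN l i).derivative.eval (nd i) = dd l i * Har l La i := by
  unfold NN Har dd
  rw [derivative_prod_finset, eval_finsetSum, mul_sum, mul_sum]
  apply sum_congr rfl
  intro j hj
  have hj1 : j ≠ i := (mem_erase.mp hj).1
  have hj2 : j < l := mem_range.mp (mem_erase.mp hj).2
  have h1 := Int.mul_ediv_cancel' (sub_dvd hLa hi hj2 hj1)
  rw [← mul_prod_erase _ _ hj]
  have h2 : eval (nd i) ((∏ k ∈ ((range l).erase i).erase j, (X - C (nd k))) *
      derivative (X - C (nd j))) = ∏ k ∈ ((range l).erase i).erase j, (nd i - nd k) := by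
    rw [derivative_X_sub_C, mul_one, eval_prod]
    exact prod_congr rfl (fun k _ => by simp)
  rw [h2]
  linear_combination (-(∏ k ∈ ((range l).erase i).erase j, (nd i - nd k))) * h1

/-- Normalised first coordinates. -/
def bq (l i : ℕ) : ℤ := cb l i ^ 2 * (Sl l * nd i - Yl l)

/-- Normalised second coordinates. -/
def aq (l : ℕ) (La : ℤ) (i : ℕ) : ℤ := La * (cb l i ^ 2 * Yl l) - 2 * bq l i * nd i * Har l La i

theorem Phi_single (l : ℕ) (hl : 1 ≤ l) (al be : ℕ → ℚ) (th : ℚ) (P : ℤ[X])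
    (h0 : ∑ i ∈ range l, (be i - al i) = 0)
    (hm : ∀ j, 1 ≤ j → j < 2 * l → mom l al be j = if j = 2 * l - 1 then th else 0) :
    Phi l al be P = (P.coeff (2 * l - 1) : ℚ) * th := by
  rw [Phi_eq l hl al be P (fun j => if j = 2 * l - 1 then th else 0) ?_ hm]
  · have h1 : ∀ j ∈ range (2 * l), (P.coeff j : ℚ) * (if j = 2 * l - 1 then th else 0) =
        if j = 2 * l - 1 then (P.coeff (2 * l - 1) : ℚ) * th else 0 := by
      intro j _
      split_ifs with h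
      · rw [h]
      · simp
    rw [sum_congr rfl h1, sum_ite_eq' (range (2 * l)) (2 * l - 1), if_pos (mem_range.mpr (by omega))]
  · rw [h0, if_neg (by omega)]
    simp

theorem vec_formula (l : ℕ) (hl : 1 ≤ l) (La ka : ℤ) (hLa0 : La ≠ 0)
    (hLa : ∀ k : ℕ, 1 ≤ k → k ≤ l → (k : ℤ) ∣ La) (al be : ℕ → ℚ)
    (h0 : ∑ i ∈ range l, (be i - al i) = 0)
    (hm : ∀ j, 1 ≤ j → j < 2 * l → mom l al be j =
      if j = 2 * l - 1 then ((ka * ((l.factorial : ℤ) ^ 2 * Sl l * La ^ 2) : ℤ) : ℚ) else 0) :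
    ∀ i < l, be i = ((ka * La ^ 2 * bq l i : ℤ) : ℚ) ∧ al i = ((ka * La * aq l La i : ℤ) : ℚ) := by
  set th : ℚ := ((ka * ((l.factorial : ℤ) ^ 2 * Sl l * La ^ 2) : ℤ) : ℚ) with hth
  set B := ∑ j ∈ range l, be j with hB
  have hfac : ((l.factorial : ℤ) : ℚ) ≠ 0 := by exact_mod_cast (Nat.factorial_ne_zero l)
  have hSl : 0 < Sl l := by
    unfold Sl
    have : 0 ≤ ∑ i ∈ range l, cb l i ^ 2 := sum_nonneg (fun i _ => sq_nonneg _)
    linarith
  have hSl' : (Sl l : ℚ) ≠ 0 := by exact_mod_cast hSl.ne'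
  have hKK : ∀ i < l, (KK l i).coeff (2 * l - 1) = 1 := by
    intro i hi
    have h1 : (KK l i).Monic := (monic_X_sub_C _).mul ((NN_monic l i).mul (NN_monic l i))
    have h2 : (KK l i).natDegree = 2 * l - 1 := by
      unfold KK
      rw [(monic_X_sub_C _).natDegree_mul ((NN_monic l i).mul (NN_monic l i)),
        (NN_monic l i).natDegree_mul (NN_monic l i), NN_natDegree hi, natDegree_X_sub_C]
      omega
    rw [← h2]
    exact h1
  have hNN : ∀ i < l, (NN l i * NN l i).coeff (2 * l - 1) = 0 := by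
    intro i hi
    apply coeff_eq_zero_of_natDegree_lt
    rw [(NN_monic l i).natDegree_mul (NN_monic l i), NN_natDegree hi]
    omega
  have k1 : ∀ i < l, be i + (cb l i : ℚ) ^ 2 * B =
      (ka : ℚ) * (La : ℚ) ^ 2 * (Sl l : ℚ) * ((nd i : ℚ) * (cb l i : ℚ) ^ 2) := by
    intro i hi
    have h1 := test_one l al be i hi
    rw [Phi_single l hl al be th _ h0 hm, hKK i hi, ← hB] at h1
    have h2 : ((dd l i : ℚ) * ((nd i : ℚ) * (cb l i : ℚ))) ^ 2 = ((l.factorial : ℤ) : ℚ) ^ 2 := by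
      exact_mod_cast dd_nd_cb hi
    have h3 : (((NN l i).coeff 0 : ℚ) * (nd i : ℚ)) ^ 2 = ((l.factorial : ℤ) : ℚ) ^ 2 := by
      exact_mod_cast n0_nd hi
    have h4 : ((l.factorial : ℤ) : ℚ) ^ 2 * (be i + (cb l i : ℚ) ^ 2 * B) =
        ((l.factorial : ℤ) : ℚ) ^ 2 *
        ((ka : ℚ) * (La : ℚ) ^ 2 * (Sl l : ℚ) * ((nd i : ℚ) * (cb l i : ℚ) ^ 2)) := by
      have h5 : th = (ka : ℚ) * (((l.factorial : ℤ) : ℚ) ^ 2 * (Sl l : ℚ) * (La : ℚ) ^ 2) := by
        rw [hth]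
        push_cast
        ring
      rw [h5] at h1
      push_cast at h1 h2 h3 ⊢
      linear_combination ((nd i : ℚ) * (cb l i : ℚ) ^ 2) * h1 - be i * h2 - (cb l i : ℚ) ^ 2 * B * h3
    exact mul_left_cancel₀ (pow_ne_zero 2 hfac) h4
  have hBY : B = (ka : ℚ) * (La : ℚ) ^ 2 * (Yl l : ℚ) := by
    have h1 : ∑ i ∈ range l, (be i + (cb l i : ℚ) ^ 2 * B) = ∑ i ∈ range l,
        (ka : ℚ) * (La : ℚ) ^ 2 * (Sl l : ℚ) * ((nd i : ℚ) * (cb l i : ℚ) ^ 2) :=
      sum_congr rfl (fun i hi => k1 i (mem_range.mp hi))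
    rw [sum_add_distrib, ← sum_mul, ← mul_sum, ← hB] at h1
    have h2 : (Sl l : ℚ) = 1 + ∑ i ∈ range l, (cb l i : ℚ) ^ 2 := by
      unfold Sl
      push_cast
      ring
    have h3 : (Yl l : ℚ) = ∑ i ∈ range l, (nd i : ℚ) * (cb l i : ℚ) ^ 2 := by
      unfold Yl
      push_cast
      ring
    have h4 : (Sl l : ℚ) * B = (Sl l : ℚ) * ((ka : ℚ) * (La : ℚ) ^ 2 * (Yl l : ℚ)) := by
      rw [← h3] at h1
      have h5 : (Sl l : ℚ) * B = B + (∑ i ∈ range l, (cb l i : ℚ) ^ 2) * B := by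
        rw [h2]
        ring
      rw [h5, h1]
      ring
    exact mul_left_cancel₀ hSl' h4
  intro i hi
  have hbe : be i = ((ka * La ^ 2 * bq l i : ℤ) : ℚ) := by
    have h1 := k1 i hi
    rw [hBY] at h1
    unfold bq
    push_cast
    linear_combination h1
  refine ⟨hbe, ?_⟩
  have h1 := test_two l al be i hi
  rw [Phi_single l hl al be th _ h0 hm, hNN i hi, ← hB, hBY, hbe] at h1
  have hd : (dd l i : ℚ) ≠ 0 := by exact_mod_cast dd_ne l i
  have hLaq : (La : ℚ) ≠ 0 := by exact_mod_cast hLa0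
  have h2 : (La : ℚ) * (((NN l i).derivative.eval (nd i) : ℤ) : ℚ) = (dd l i : ℚ) * (Har l La i : ℚ) := by
    exact_mod_cast der_har hLa hi
  have h3 : ((NN l i).coeff 0 : ℚ) ^ 2 = (dd l i : ℚ) ^ 2 * (cb l i : ℚ) ^ 2 := by
    exact_mod_cast n0_sq hi
  have h4 : (dd l i : ℚ) ^ 2 * al i = (dd l i : ℚ) ^ 2 * ((ka * La * aq l La i : ℤ) : ℚ) := by
    unfold aq
    push_cast at h1 ⊢
    rw [h3] at h1
    linear_combination h1 - 2 * (ka : ℚ) * (La : ℚ) * (bq l i : ℚ) * (dd l i : ℚ) * (nd i : ℚ) * h2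
  exact mul_left_cancel₀ (pow_ne_zero 2 hd) h4

end Pool.Agent.Helper81.FE
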