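import Mathlib
import Pool.Agent.Helper81.FE.Vec

/-!
# A small vector of exact order `2 l`, bounds
-/

set_option autoImplicit false

namespace Pool.Agent.Helper81.FE

open Polynomial Finset

theorem abs_mul_le {a b A B : ℤ} (ha : |a| ≤ A) (hb : |b| ≤ B) : |a * b| ≤ A * B := by
  rw [abs_mul]
  exact mul_le_mul ha hb (abs_nonneg _) ((abs_nonneg _).trans ha)

theorem abs_pow_le {a A : ℤ} (ha : |a| ≤ A) (n : ℕ) : |a ^ n| ≤ A ^ n := by
  rw [abs_pow]
  exact pow_le_pow_left₀ (abs_nonneg _) ha n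

section bounds

variable (s l : ℕ) (hl : 1 ≤ l) (hls : l ≤ s)

include hl hls

theorem pp_ge : (2 : ℤ) ≤ 2 ^ s := by
  calc (2 : ℤ) = 2 ^ 1 := by norm_num
    _ ≤ 2 ^ s := pow_le_pow_right₀ (by norm_num) (by omega)

omit hl in
theorem succ_le_pp : (l : ℤ) + 1 ≤ 2 ^ s := by
  have h1 : l < 2 ^ l := Nat.lt_two_pow_self
  have h2 : 2 ^ l ≤ 2 ^ s := Nat.pow_le_pow_right (by norm_num) hls
  have h3 : l + 1 ≤ 2 ^ s := by omega
  exact_mod_cast h3

theorem two_l_le_pp : 2 * (l : ℤ) ≤ 2 ^ s := by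
  have h1 : l - 1 < 2 ^ (l - 1) := Nat.lt_two_pow_self
  have h2 : 2 ^ l ≤ 2 ^ s := Nat.pow_le_pow_right (by norm_num) hls
  have h4 : 2 ^ l = 2 * 2 ^ (l - 1) := by
    rw [← pow_succ']
    congr 1
    omega
  have h3 : 2 * l ≤ 2 ^ s := by omega
  exact_mod_cast h3

omit hl in
theorem nd_le_pp {i : ℕ} (hi : i < l) : |nd i| ≤ 2 ^ s := by
  rw [abs_of_pos (nd_pos i)]
  have := succ_le_pp s l hls
  unfold nd
  omega

omit hl in
theorem cb_le_pp (i : ℕ) : |cb l i| ≤ 2 ^ s := by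
  rw [abs_of_nonneg (cb_nonneg l i)]
  unfold cb
  have h1 := Nat.choose_le_two_pow l (i + 1)
  have h2 : 2 ^ l ≤ 2 ^ s := Nat.pow_le_pow_right (by norm_num) hls
  exact_mod_cast h1.trans h2

omit hl hls in
theorem Sl_pos : 0 < Sl l := by
  unfold Sl
  have : 0 ≤ ∑ i ∈ range l, cb l i ^ 2 := sum_nonneg (fun i _ => sq_nonneg _)
  linarith

theorem Sl_le : Sl l ≤ (2 ^ s) ^ 3 := by
  have hp := pp_ge s l hl hls
  have h1 : ∀ i ∈ range l, cb l i ^ 2 ≤ (2 ^ s) ^ 2 := by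
    intro i _
    have := abs_pow_le (cb_le_pp s l hls i) 2
    rwa [abs_of_nonneg (sq_nonneg _)] at this
  have h2 : ∑ i ∈ range l, cb l i ^ 2 ≤ l * (2 ^ s) ^ 2 := by
    refine (sum_le_sum h1).trans (le_of_eq ?_)
    rw [sum_const, card_range, nsmul_eq_mul]
  have h3 := succ_le_pp s l hls
  have h4 : (1 : ℤ) ≤ (2 ^ s) ^ 2 := one_le_pow₀ (by linarith)
  unfold Sl
  calc 1 + ∑ i ∈ range l, cb l i ^ 2 ≤ (2 ^ s) ^ 2 + l * (2 ^ s) ^ 2 := by linarith
    _ = ((l : ℤ) + 1) * (2 ^ s) ^ 2 := by ring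
    _ ≤ (2 ^ s) * (2 ^ s) ^ 2 := mul_le_mul_of_nonneg_right h3 (by positivity)
    _ = (2 ^ s) ^ 3 := by ring

theorem Yl_le : |Yl l| ≤ (2 ^ s) ^ 4 := by
  have hp := pp_ge s l hl hls
  unfold Yl
  refine (abs_sum_le_sum_abs _ _).trans ?_
  have h1 : ∀ i ∈ range l, |nd i * cb l i ^ 2| ≤ (2 ^ s) * (2 ^ s) ^ 2 := by
    intro i hi
    exact abs_mul_le (nd_le_pp s l hls (mem_range.mp hi)) (abs_pow_le (cb_le_pp s l hls i) 2)
  refine (sum_le_sum h1).trans ?_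
  rw [sum_const, card_range, nsmul_eq_mul]
  have h3 := succ_le_pp s l hls
  calc (l : ℤ) * (2 ^ s * (2 ^ s) ^ 2) ≤ (2 ^ s) * (2 ^ s * (2 ^ s) ^ 2) :=
        mul_le_mul_of_nonneg_right (by linarith) (by positivity)
    _ = (2 ^ s) ^ 4 := by ring

theorem bq_le {i : ℕ} (hi : i < l) : |bq l i| ≤ (2 ^ s) ^ 7 := by
  have hp := pp_ge s l hl hls
  have hS : |Sl l| ≤ (2 ^ s) ^ 3 := by
    rw [abs_of_pos (Sl_pos l)]
    exact Sl_le s l hl hls
  have h1 : |Sl l * nd i - Yl l| ≤ (2 ^ s) ^ 3 * 2 ^ s + (2 ^ s) ^ 4 :=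
    (abs_sub _ _).trans (add_le_add (abs_mul_le hS (nd_le_pp s l hls hi)) (Yl_le s l hl hls))
  have h2 := abs_mul_le (abs_pow_le (cb_le_pp s l hls i) 2) h1
  unfold bq
  refine h2.trans ?_
  have h3 : ((2 : ℤ) ^ s) ^ 2 * ((2 ^ s) ^ 3 * 2 ^ s + (2 ^ s) ^ 4) = 2 * (2 ^ s) ^ 6 := by ring
  rw [h3]
  calc 2 * ((2 : ℤ) ^ s) ^ 6 ≤ 2 ^ s * (2 ^ s) ^ 6 := mul_le_mul_of_nonneg_right hp (by positivity)
    _ = (2 ^ s) ^ 7 := by ring

variable (La : ℤ) (hLa0 : 0 < La) (hLa : ∀ k : ℕ, 1 ≤ k → k ≤ l → (k : ℤ) ∣ La)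

include hLa0 hLa

omit hl in
theorem Har_le {i : ℕ} (hi : i < l) : |Har l La i| ≤ 2 ^ s * La := by
  unfold Har
  refine (abs_sum_le_sum_abs _ _).trans ?_
  have h1 : ∀ j ∈ (range l).erase i, |La / (nd i - nd j)| ≤ La := by
    intro j hj
    have hj1 : j ≠ i := (mem_erase.mp hj).1
    have hj2 : j < l := mem_range.mp (mem_erase.mp hj).2
    have h2 := Int.mul_ediv_cancel' (sub_dvd hLa hi hj2 hj1)
    have h3 : nd i - nd j ≠ 0 := by
      intro h
      exact hj1 (nd_inj (by linarith)).symm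
    have h4 : 1 ≤ |nd i - nd j| := Int.one_le_abs h3
    have h5 : |nd i - nd j| * |La / (nd i - nd j)| = La := by
      rw [← abs_mul, h2, abs_of_pos hLa0]
    nlinarith [abs_nonneg (La / (nd i - nd j))]
  refine (sum_le_sum h1).trans ?_
  rw [sum_const, card_erase_of_mem (mem_range.mpr hi), card_range, nsmul_eq_mul]
  have h3 := succ_le_pp s l hls
  apply mul_le_mul_of_nonneg_right _ hLa0.le
  have h4 : ((l - 1 : ℕ) : ℤ) ≤ (l : ℤ) := by omega
  linarith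

theorem aq_le {i : ℕ} (hi : i < l) : |aq l La i| ≤ (2 ^ s) ^ 11 * La := by
  have hp := pp_ge s l hl hls
  have hLaa : |La| ≤ La := by rw [abs_of_pos hLa0]
  have h1 := abs_mul_le hLaa (abs_mul_le (abs_pow_le (cb_le_pp s l hls i) 2) (Yl_le s l hl hls))
  have h2 := abs_mul_le (abs_mul_le (abs_mul_le (show |(2 : ℤ)| ≤ 2 by norm_num)
    (bq_le s l hl hls hi)) (nd_le_pp s l hls hi)) (Har_le s l hls La hLa0 hLa hi)
  unfold aq
  refine (abs_sub _ _).trans ((add_le_add h1 h2).trans ?_)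
  have h3 : La * (((2 : ℤ) ^ s) ^ 2 * (2 ^ s) ^ 4) + 2 * (2 ^ s) ^ 7 * 2 ^ s * (2 ^ s * La) =
      ((2 ^ s) ^ 6 + 2 * (2 ^ s) ^ 9) * La := by ring
  rw [h3]
  apply mul_le_mul_of_nonneg_right _ hLa0.le
  have h4 : ((2 : ℤ) ^ s) ^ 6 ≤ (2 ^ s) ^ 9 := pow_le_pow_right₀ (by linarith) (by norm_num)
  have h5 : (0 : ℤ) < (2 ^ s) ^ 9 := by positivity
  have h6 : ((2 : ℤ) ^ s) ^ 11 = (2 ^ s) ^ 2 * (2 ^ s) ^ 9 := by ring
  have h7 : (4 : ℤ) ≤ (2 ^ s) ^ 2 := by nlinarith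
  rw [h6]
  nlinarith

theorem vec : ∃ a b : ℕ → ℤ,
    (∀ i < l, |a i| ≤ La ^ 2 * (2 ^ s) ^ 14 ∧ |b i| ≤ La ^ 2 * (2 ^ s) ^ 14) ∧
    ∑ i ∈ range l, nd i * a i = 0 ∧
    ∀ j, 1 ≤ j → j < 2 * l →
      ∑ i ∈ range l, nd i ^ j * ((j : ℤ) * (nd i * a i) - ((j : ℤ) + 1) * b i) =
        (-1) ^ j * ((j : ℤ) * ((j : ℤ) + 1)) *
          (((l.factorial : ℤ) ^ 2 * Sl l * La ^ 2) * (if j + 1 = 2 * l then 1 else 0)) := by
  set ka : ℤ := -((2 * (l : ℤ) - 1) * (2 * l)) with hka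
  obtain ⟨al, be, h0, hm⟩ := exists_rat l hl (fun j => if j = 2 * l - 1 then
    ((ka * ((l.factorial : ℤ) ^ 2 * Sl l * La ^ 2) : ℤ) : ℚ) else 0)
  have h0' : ∑ i ∈ range l, (be i - al i) = 0 := by
    rw [h0, if_neg (by omega)]
    simp
  have hf := vec_formula l hl La ka hLa0.ne' hLa al be h0' hm
  have hndLa : ∀ i < l, nd i * (La / nd i) = La := by
    intro i hi
    apply Int.mul_ediv_cancel'
    have := hLa (i + 1) (by omega) (by omega)
    unfold nd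
    exact_mod_cast this
  have hp := pp_ge s l hl hls
  have hkale : |ka| ≤ (2 ^ s) ^ 2 := by
    have h1 := two_l_le_pp s l hl hls
    have h2 : (1 : ℤ) ≤ l := by exact_mod_cast hl
    rw [hka, abs_neg, abs_of_nonneg (by nlinarith), sq]
    exact mul_le_mul (by linarith) h1 (by positivity) (by positivity)
  have hLaa : |La| ≤ La := by rw [abs_of_pos hLa0]
  refine ⟨fun i => ka * ((La / nd i) * (La * bq l i - aq l La i)), fun i => -(ka * (La * aq l La i)),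
    ?_, ?_, ?_⟩
  · intro i hi
    have hbq := bq_le s l hl hls hi
    have haq := aq_le s l hl hls La hLa0 hLa hi
    constructor
    · have h1 : |La / nd i| ≤ La := by
        have h2 := hndLa i hi
        have h3 := nd_pos i
        have h4 : 0 ≤ La / nd i := Int.ediv_nonneg hLa0.le h3.le
        rw [abs_of_nonneg h4]
        nlinarith
      have h2 : |La * bq l i - aq l La i| ≤ La * (2 ^ s) ^ 7 + (2 ^ s) ^ 11 * La :=
        (abs_sub _ _).trans (add_le_add (abs_mul_le hLaa hbq) haq)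
      have h3 := abs_mul_le hkale (abs_mul_le h1 h2)
      refine h3.trans ?_
      have h4 : ((2 : ℤ) ^ s) ^ 2 * (La * (La * (2 ^ s) ^ 7 + (2 ^ s) ^ 11 * La)) =
          La ^ 2 * ((2 ^ s) ^ 9 + (2 ^ s) ^ 13) := by ring
      rw [h4]
      apply mul_le_mul_of_nonneg_left _ (sq_nonneg La)
      have h5 : ((2 : ℤ) ^ s) ^ 9 ≤ (2 ^ s) ^ 13 := pow_le_pow_right₀ (by linarith) (by norm_num)
      have h6 : ((2 : ℤ) ^ s) ^ 14 = (2 ^ s) * (2 ^ s) ^ 13 := by ring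
      have h7 : (0 : ℤ) < (2 ^ s) ^ 13 := by positivity
      rw [h6]
      nlinarith
    · show |-(ka * (La * aq l La i))| ≤ La ^ 2 * (2 ^ s) ^ 14
      rw [abs_neg]
      have h3 := abs_mul_le hkale (abs_mul_le hLaa haq)
      refine h3.trans ?_
      have h4 : ((2 : ℤ) ^ s) ^ 2 * (La * ((2 ^ s) ^ 11 * La)) = La ^ 2 * (2 ^ s) ^ 13 := by ring
      rw [h4]
      apply mul_le_mul_of_nonneg_left _ (sq_nonneg La)
      exact pow_le_pow_right₀ (by linarith) (by norm_num)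
  · have h1 : ((∑ i ∈ range l, nd i * (ka * ((La / nd i) * (La * bq l i - aq l La i))) : ℤ) : ℚ) =
        0 := by
      rw [← h0']
      push_cast
      apply sum_congr rfl
      intro i hi
      have hi' := mem_range.mp hi
      have h2 : (nd i : ℚ) * ((La / nd i : ℤ) : ℚ) = (La : ℚ) := by exact_mod_cast hndLa i hi'
      rw [(hf i hi').1, (hf i hi').2]
      push_cast at h2 ⊢
      linear_combination ((ka : ℚ) * ((La : ℚ) * (bq l i : ℚ) - (aq l La i : ℚ))) * h2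
    exact_mod_cast h1
  · intro j hj1 hj2
    have h1 : ((∑ i ∈ range l, nd i ^ j * ((j : ℤ) * (nd i * (ka * ((La / nd i) *
        (La * bq l i - aq l La i)))) - ((j : ℤ) + 1) * -(ka * (La * aq l La i))) : ℤ) : ℚ) =
        (((-1) ^ j * ((j : ℤ) * ((j : ℤ) + 1)) *
          (((l.factorial : ℤ) ^ 2 * Sl l * La ^ 2) * (if j + 1 = 2 * l then 1 else 0)) : ℤ) : ℚ) := by
      have h2 : ((∑ i ∈ range l, nd i ^ j * ((j : ℤ) * (nd i * (ka * ((La / nd i) *
          (La * bq l i - aq l La i)))) - ((j : ℤ) + 1) * -(ka * (La * aq l La i))) : ℤ) : ℚ) =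
          mom l al be j := by
        unfold mom
        push_cast
        apply sum_congr rfl
        intro i hi
        have hi' := mem_range.mp hi
        have h3 : (nd i : ℚ) * ((La / nd i : ℤ) : ℚ) = (La : ℚ) := by exact_mod_cast hndLa i hi'
        rw [(hf i hi').1, (hf i hi').2]
        push_cast at h3 ⊢
        linear_combination ((nd i : ℚ) ^ j * (j : ℚ) *
          ((ka : ℚ) * ((La : ℚ) * (bq l i : ℚ) - (aq l La i : ℚ)))) * h3
      rw [h2, hm j hj1 hj2]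
      by_cases h : j = 2 * l - 1
      · have h3 : j + 1 = 2 * l := by omega
        rw [if_pos h, if_pos h3]
        have h4 : (-1 : ℤ) ^ j = -1 := by
          apply Odd.neg_one_pow
          exact ⟨l - 1, by omega⟩
        have h5 : (j : ℤ) = 2 * l - 1 := by omega
        rw [h4, h5, hka]
        push_cast
        ring
      · have h3 : ¬ (j + 1 = 2 * l) := by omega
        rw [if_neg h, if_neg h3]
        simp
    exact_mod_cast h1

end bounds

end Pool.Agent.Helper81.FE
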