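import Mathlib
import Pool.Agent.Helper81.FE.Vec2
import Pool.Agent.Helper81.FE.Coef
import Pool.Agent.Helper81.FE.Log

/-!
# Solving an exponential congruence with small exponents, digit by digit
-/

set_option autoImplicit false

namespace Pool.Agent.Helper81.FE

open Finset

theorem one_step {Q : ℕ} (hQ : Q.Prime) (u R : ℤ) (hu : IsCoprime u (Q : ℤ)) :
    ∃ τ : ℤ, 0 ≤ τ ∧ τ < (Q : ℤ) ^ 2 ∧ (Q : ℤ) ^ 2 ∣ R - τ * u := by
  have hQ0 : (0 : ℤ) < (Q : ℤ) ^ 2 := by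
    have := hQ.pos
    positivity
  obtain ⟨x, y, hxy⟩ := hu.pow_right (n := 2)
  refine ⟨(x * R) % (Q : ℤ) ^ 2, Int.emod_nonneg _ hQ0.ne', Int.emod_lt_of_pos _ hQ0, ?_⟩
  have h2 : (x * R) % (Q : ℤ) ^ 2 = x * R - (Q : ℤ) ^ 2 * ((x * R) / (Q : ℤ) ^ 2) := by
    have := Int.emod_add_mul_ediv (x * R) ((Q : ℤ) ^ 2)
    linarith
  refine ⟨y * R + u * ((x * R) / (Q : ℤ) ^ 2), ?_⟩
  rw [h2]
  linear_combination (-R) * hxy

theorem chain {Q : ℕ} (hQ : Q.Prime) (s : ℕ) (e u : ℕ → ℤ)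
    (hu : ∀ l ≤ s, IsCoprime (u l) (Q : ℤ)) (he0 : e 0 = Q * u 0)
    (he : ∀ l, 1 ≤ l → l ≤ s → e l = (Q : ℤ) ^ (2 * l) * u l) (T : ℤ) (hT : (Q : ℤ) ∣ T) (m : ℕ)
    (hm : m ≤ s) :
    ∃ τ : ℕ → ℤ, (∀ l, 0 ≤ τ l ∧ τ l < (Q : ℤ) ^ 2) ∧
      (Q : ℤ) ^ (2 * m + 2) ∣ T - ∑ l ∈ range (m + 1), τ l * e l := by
  induction m with
  | zero =>
    obtain ⟨T', rfl⟩ := hT
    obtain ⟨t, h1, h2, r, hr⟩ := one_step hQ (u 0) T' (hu 0 (by omega))
    refine ⟨fun _ => t, fun _ => ⟨h1, h2⟩, Q * r, ?_⟩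
    rw [sum_range_one, he0]
    linear_combination (Q : ℤ) * hr
  | succ m ih =>
    obtain ⟨τ, hτ, R, hR⟩ := ih (by omega)
    obtain ⟨t, h1, h2, r, hr⟩ := one_step hQ (u (m + 1)) R (hu (m + 1) hm)
    refine ⟨fun l => if l = m + 1 then t else τ l, ?_, r, ?_⟩
    · intro l
      show 0 ≤ (if l = m + 1 then t else τ l) ∧ (if l = m + 1 then t else τ l) < (Q : ℤ) ^ 2
      split_ifs
      · exact ⟨h1, h2⟩
      · exact hτ l
    · rw [sum_range_succ]
      beta_reduce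
      rw [if_pos rfl]
      have h3 : ∑ l ∈ range (m + 1), (if l = m + 1 then t else τ l) * e l =
          ∑ l ∈ range (m + 1), τ l * e l := by
        apply sum_congr rfl
        intro l hl
        have := mem_range.mp hl
        rw [if_neg (by omega)]
      rw [h3, he (m + 1) (by omega) hm]
      have h4 : (Q : ℤ) ^ (2 * (m + 1) + 2) = (Q : ℤ) ^ (2 * (m + 1)) * (Q : ℤ) ^ 2 := pow_add _ _ _
      have h5 : (Q : ℤ) ^ (2 * m + 2) = (Q : ℤ) ^ (2 * (m + 1)) := by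
        congr 1
      rw [h5] at hR
      rw [h4]
      linear_combination hR + (Q : ℤ) ^ (2 * (m + 1)) * hr

theorem coprime_of_lt {Q : ℕ} (hQ : Q.Prime) {x : ℤ} (h0 : 0 < x) (hx : x < Q) :
    IsCoprime x (Q : ℤ) := by
  obtain ⟨d, hd⟩ := Int.eq_ofNat_of_zero_le h0.le
  rw [hd] at h0 hx ⊢
  rw [Nat.isCoprime_iff_coprime]
  exact (Nat.Coprime.symm ((Nat.Prime.coprime_iff_not_dvd hQ).mpr
    (Nat.not_dvd_of_pos_of_lt (by exact_mod_cast h0) (by exact_mod_cast hx))))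

theorem coprime_fact {Q : ℕ} (hQ : Q.Prime) {n : ℕ} (hn : n < Q) :
    IsCoprime ((n.factorial : ℕ) : ℤ) (Q : ℤ) := by
  rw [Nat.isCoprime_iff_coprime]
  exact ((Nat.Prime.coprime_iff_not_dvd hQ).mpr (by
    intro h
    have := (Nat.Prime.dvd_factorial hQ).mp h
    omega)).symm

theorem level (s l : ℕ) (hl : 1 ≤ l) (hls : l ≤ s) {Q : ℕ} (hQ : Q.Prime) (hodd : Odd Q)
    (hQ1 : 2 * s + 4 ≤ Q) (hQ2 : (2 ^ s) ^ 3 < (Q : ℤ)) (aa : ℕ) (haa : Nat.Coprime aa Q)
    (La : ℤ) (hLa0 : 0 < La) (hLa : ∀ k : ℕ, 1 ≤ k → k ≤ l → (k : ℤ) ∣ La)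
    (hLaQ : IsCoprime La (Q : ℤ)) (N : ℕ) (hN : 2 * s + 2 ≤ N) :
    ∃ h : ℕ → ℤ, ∃ u : ℤ, (∀ i < l, |h i| ≤ La ^ 2 * (2 ^ s) ^ 14 * (1 + aa * Q)) ∧
      IsCoprime u (Q : ℤ) ∧
      ∑ i ∈ range l, h i * EE Q N (1 + nd i * ((aa : ℤ) * Q)) = (Q : ℤ) ^ (2 * l) * u := by
  obtain ⟨a, b, hab, h1, h2⟩ := vec s l hl hls La hLa0 hLa
  set P : ℤ := (aa : ℤ) * Q with hP
  set Δ : ℤ := (l.factorial : ℤ) ^ 2 * Sl l * La ^ 2 with hΔ
  have hP0 : 0 ≤ P := by
    rw [hP]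
    positivity
  have hxd : ∀ i, (Q : ℤ) ∣ nd i * P := by
    intro i
    refine ⟨nd i * aa, ?_⟩
    rw [hP]
    ring
  have hΔQ : IsCoprime Δ (Q : ℤ) := by
    rw [hΔ]
    have g1 : IsCoprime ((l.factorial : ℕ) : ℤ) (Q : ℤ) := coprime_fact hQ (by omega)
    have g2 : IsCoprime (Sl l) (Q : ℤ) :=
      coprime_of_lt hQ (Sl_pos l) ((Sl_le s l hl hls).trans_lt hQ2)
    exact ((g1.pow_left).mul_left g2).mul_left hLaQ.pow_left
  have haQ : IsCoprime (aa : ℤ) (Q : ℤ) := Nat.isCoprime_iff_coprime.mpr haa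
  set D : ℤ := ((2 * l).factorial : ℤ) with hDdef
  have hDQ : IsCoprime ((Q : ℤ) ^ (2 * l + 1)) D := by
    apply IsCoprime.pow_left
    exact (coprime_fact hQ (by omega)).symm
  have hDk : ∀ k < 2 * l, ((k : ℤ) + 1) * (D / ((k : ℤ) + 1)) = D := by
    intro k hk
    apply Int.mul_ediv_cancel'
    have g1 : k + 1 ∣ (2 * l).factorial := Nat.dvd_factorial (by omega) (by omega)
    rw [hDdef]
    exact_mod_cast g1
  have f2 : ∀ i, D * EE Q N (1 + nd i * P) ≡
      ∑ k ∈ range (2 * l), (-1) ^ k * (D / ((k : ℤ) + 1)) * (nd i * P) ^ (k + 1)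
      [ZMOD (Q : ℤ) ^ (2 * l + 1)] := by
    intro i
    exact EE_series hQ hodd N (2 * l) (by omega) (by omega) (by omega) D
      (fun k => D / ((k : ℤ) + 1)) hDk (nd i * P) (hxd i)
  have f3 := coef_identity l hl a b (fun k => if k = 2 * l then 1 else 0) Δ D
    (fun k => D / ((k : ℤ) + 1)) hDk (by
      rw [h1, if_neg (by omega)]
      ring) h2 P
  have f4 : (Q : ℤ) ^ (2 * l + 1) ∣ P ^ (2 * l + 1) :=
    pow_dvd_pow_of_dvd (Dvd.intro_left (aa : ℤ) hP.symm) _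
  have f5 : ∑ k ∈ range (2 * l), (if k + 1 = 2 * l then (1 : ℤ) else 0) * P ^ (k + 1) =
      P ^ (2 * l) := by
    obtain ⟨n, hn⟩ : ∃ n, 2 * l = n + 1 := ⟨2 * l - 1, by omega⟩
    rw [hn, sum_range_succ, if_pos rfl]
    have g1 : ∑ k ∈ range n, (if k + 1 = n + 1 then (1 : ℤ) else 0) * P ^ (k + 1) = 0 := by
      apply sum_eq_zero
      intro k hk
      have := mem_range.mp hk
      rw [if_neg (by omega)]
      ring
    rw [g1]
    ring
  rw [f5] at f3
  have f6 : ∑ i ∈ range l, (a i + b i * P) * (D * EE Q N (1 + nd i * P)) ≡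
      D * (Δ * P ^ (2 * l)) [ZMOD (Q : ℤ) ^ (2 * l + 1)] := by
    have g1 : ∑ i ∈ range l, (a i + b i * P) * (D * EE Q N (1 + nd i * P)) ≡
        ∑ i ∈ range l, (a i + b i * P) *
        ∑ k ∈ range (2 * l), (-1) ^ k * (D / ((k : ℤ) + 1)) * (nd i * P) ^ (k + 1)
        [ZMOD (Q : ℤ) ^ (2 * l + 1)] := by
      apply Int.ModEq.sum
      intro i _
      exact (f2 i).mul_left _
    refine g1.trans ?_
    exact (Int.modEq_iff_dvd.mpr (f4.trans f3)).symm
  have f7 : ∑ i ∈ range l, (a i + b i * P) * (D * EE Q N (1 + nd i * P)) =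
      D * ∑ i ∈ range l, (a i + b i * P) * EE Q N (1 + nd i * P) := by
    rw [mul_sum]
    exact sum_congr rfl (fun i _ => by ring)
  rw [f7] at f6
  have f8 : (Q : ℤ) ^ (2 * l + 1) ∣ ∑ i ∈ range l, (a i + b i * P) * EE Q N (1 + nd i * P) -
      Δ * P ^ (2 * l) := by
    have g1 := Int.modEq_iff_dvd.mp f6.symm
    rw [← mul_sub] at g1
    exact hDQ.dvd_of_dvd_mul_left g1
  obtain ⟨r, hr⟩ := f8
  refine ⟨fun i => a i + b i * P, Δ * (aa : ℤ) ^ (2 * l) + Q * r, ?_, ?_, ?_⟩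
  · intro i hi
    obtain ⟨g1, g2⟩ := hab i hi
    show |a i + b i * P| ≤ La ^ 2 * (2 ^ s) ^ 14 * (1 + P)
    refine (abs_add_le _ _).trans ?_
    rw [abs_mul, abs_of_nonneg hP0]
    have g3 := mul_le_mul_of_nonneg_right g2 hP0
    linarith
  · have g1 : IsCoprime (Δ * (aa : ℤ) ^ (2 * l)) (Q : ℤ) := hΔQ.mul_left haQ.pow_left
    exact IsCoprime.add_mul_left_left g1 r
  · beta_reduce
    have g1 : P ^ (2 * l) = (aa : ℤ) ^ (2 * l) * (Q : ℤ) ^ (2 * l) := by
      rw [hP, mul_pow]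
    rw [g1, pow_succ] at hr
    linear_combination hr

theorem solve_two (s : ℕ) (hs : 1 ≤ s) {Q : ℕ} (hQ : Q.Prime) (hodd : Odd Q) (hQ1 : 2 * s + 4 ≤ Q)
    (hQ2 : (2 ^ s) ^ 3 < (Q : ℤ)) (aa : ℕ) (haa : Nat.Coprime aa Q)
    (La : ℤ) (hLa0 : 0 < La) (hLa : ∀ k : ℕ, 1 ≤ k → k ≤ s → (k : ℤ) ∣ La)
    (hLaQ : IsCoprime La (Q : ℤ)) (W : ℕ)
    (hW : ((s : ℤ) + 1) * ((Q : ℤ) ^ 2 * (La ^ 2 * (2 ^ s) ^ 14 * (1 + aa * Q))) ≤ (W : ℤ)) (u : ℤ)
    (hu : (Q : ℤ) ∣ u - 1) :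
    ∃ n : ℕ → ℕ, (∀ i < s, 1 ≤ n i ∧ n i ≤ 2 * W + 1) ∧
      (Q : ℤ) ^ (2 * s + 2) ∣ u * ∏ i ∈ range s, (1 + nd i * (aa * Q)) ^ n i - 1 := by
  set P : ℤ := (aa : ℤ) * Q with hP
  set N := 2 * s + 2 with hN
  set H : ℤ := La ^ 2 * (2 ^ s) ^ 14 * (1 + P) with hH
  have hQ0 : (0 : ℤ) < Q := by exact_mod_cast hQ.pos
  have hP0 : 0 ≤ P := by
    rw [hP]
    positivity
  have hH1 : 1 ≤ H := by
    have g1 : 0 < H := by
      rw [hH]
      positivity
    omega
  have hx : ∀ i, (Q : ℤ) ∣ (1 + nd i * P) - 1 := by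
    intro i
    refine ⟨nd i * aa, ?_⟩
    rw [hP]
    ring
  have haQ : IsCoprime (aa : ℤ) (Q : ℤ) := Nat.isCoprime_iff_coprime.mpr haa
  have hlev : ∀ l : ℕ, ∃ g : ℕ → ℤ, ∃ v : ℤ, l ≤ s → (∀ i, |g i| ≤ H) ∧ IsCoprime v (Q : ℤ) ∧
      (l = 0 → ∑ i ∈ range s, g i * EE Q N (1 + nd i * P) = (Q : ℤ) * v) ∧
      (1 ≤ l → ∑ i ∈ range s, g i * EE Q N (1 + nd i * P) = (Q : ℤ) ^ (2 * l) * v) := by
    intro l
    by_cases hls : l ≤ s
    · rcases Nat.eq_zero_or_pos l with h0 | h0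
      · -- the first digit
        have g1 : (Q : ℤ) ∣ EE Q N (1 + nd 0 * P) := by
          have := (EE_dvd_iff hQ hodd N 1 (hx 0)).mpr (by simpa using hx 0)
          simpa using this
        have g2 : ¬ (Q : ℤ) ^ 2 ∣ EE Q N (1 + nd 0 * P) := by
          rw [EE_dvd_iff hQ hodd N 2 (hx 0)]
          intro g3
          have g4 : (1 + nd 0 * P) - 1 = (aa : ℤ) * Q := by
            unfold nd
            rw [hP]
            push_cast
            ring
          rw [g4, sq] at g3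
          have g5 : (Q : ℤ) ∣ (aa : ℤ) := by
            exact (mul_dvd_mul_iff_right hQ0.ne').mp g3
          have g6 : Q ∣ aa := by exact_mod_cast g5
          have g7 := (Nat.Prime.coprime_iff_not_dvd hQ).mp haa.symm
          exact g7 g6
        obtain ⟨v, hv⟩ := g1
        refine ⟨fun i => if i = 0 then 1 else 0, v, fun _ => ⟨?_, ?_, ?_, ?_⟩⟩
        · intro i
          show |if i = 0 then (1 : ℤ) else 0| ≤ H
          split_ifs
          · simpa using hH1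
          · simp
            linarith
        · have g3 : ¬ (Q : ℤ) ∣ v := by
            rintro ⟨r, rfl⟩
            apply g2
            exact ⟨r, by rw [hv]; ring⟩
          exact ((Nat.prime_iff_prime_int.mp hQ).coprime_iff_not_dvd.mpr g3).symm
        · intro _
          have g3 : ∀ i ∈ range s, (if i = 0 then (1 : ℤ) else 0) * EE Q N (1 + nd i * P) =
              if i = 0 then EE Q N (1 + nd 0 * P) else 0 := by
            intro i _
            split_ifs with h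
            · rw [h, one_mul]
            · rw [zero_mul]
          rw [sum_congr rfl g3, sum_ite_eq' (range s) 0, if_pos (mem_range.mpr (by omega)), hv]
        · intro h
          omega
      · obtain ⟨h, v, g1, g2, g3⟩ := level s l h0 hls hQ hodd hQ1 hQ2 aa haa La hLa0
          (fun k hk1 hk2 => hLa k hk1 (hk2.trans hls)) hLaQ N (le_refl _)
        refine ⟨fun i => if i < l then h i else 0, v, fun _ => ⟨?_, g2, ?_, ?_⟩⟩
        · intro i
          show |if i < l then h i else 0| ≤ H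
          split_ifs with h
          · exact g1 i h
          · simp
            linarith
        · intro h
          omega
        · intro _
          rw [← g3]
          have g4 : ∑ i ∈ range s, (if i < l then h i else 0) * EE Q N (1 + nd i * P) =
              ∑ i ∈ range l, (if i < l then h i else 0) * EE Q N (1 + nd i * P) := by
            symm
            apply sum_subset
            · intro i hi
              exact mem_range.mpr (by have := mem_range.mp hi; omega)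
            · intro i _ hi
              rw [if_neg (by simpa using hi), zero_mul]
          rw [g4]
          apply sum_congr rfl
          intro i hi
          rw [if_pos (mem_range.mp hi)]
    · exact ⟨fun _ => 0, 0, fun h => absurd h hls⟩
  choose g v hgv using hlev
  -- the target
  set T : ℤ := -(EE Q N u + ((W : ℤ) + 1) * ∑ i ∈ range s, EE Q N (1 + nd i * P)) with hT
  have hTd : (Q : ℤ) ∣ T := by
    rw [hT]
    apply Dvd.dvd.neg_right
    have e1 : ∀ w : ℤ, (Q : ℤ) ∣ w - 1 → (Q : ℤ) ∣ EE Q N w := by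
      intro w hw
      have := (EE_dvd_iff hQ hodd N 1 hw).mpr (by simpa using hw)
      simpa using this
    apply dvd_add (e1 u hu)
    apply Dvd.dvd.mul_left
    exact dvd_sum (fun i _ => e1 _ (hx i))
  obtain ⟨τ, hτ, hdiv⟩ := chain hQ s (fun l => ∑ i ∈ range s, g l i * EE Q N (1 + nd i * P)) v
    (fun l hl => (hgv l hl).2.1) ((hgv 0 (by omega)).2.2.1 rfl)
    (fun l hl1 hl2 => (hgv l hl2).2.2.2 hl1) T hTd s (le_refl s)
  set m : ℕ → ℤ := fun i => ∑ l ∈ range (s + 1), τ l * g l i with hm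
  have hsz : ∀ i, |m i| ≤ (W : ℤ) := by
    intro i
    refine le_trans ?_ hW
    rw [hm]
    refine (abs_sum_le_sum_abs _ _).trans ?_
    have g1 : ∀ l ∈ range (s + 1), |τ l * g l i| ≤ (Q : ℤ) ^ 2 * H := by
      intro l hl
      have hl' := mem_range.mp hl
      apply abs_mul_le
      · rw [abs_of_nonneg (hτ l).1]
        exact (hτ l).2.le
      · exact (hgv l (by omega)).1 i
    refine (sum_le_sum g1).trans (le_of_eq ?_)
    rw [sum_const, card_range, nsmul_eq_mul]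
    push_cast
    ring
  refine ⟨fun i => ((W : ℤ) + 1 + m i).toNat, ?_, ?_⟩
  · intro i hi
    have h1 := abs_le.mp (hsz i)
    constructor
    · have : (1 : ℤ) ≤ (W : ℤ) + 1 + m i := by linarith
      show 1 ≤ ((W : ℤ) + 1 + m i).toNat
      omega
    · have : (W : ℤ) + 1 + m i ≤ 2 * W + 1 := by linarith
      show ((W : ℤ) + 1 + m i).toNat ≤ 2 * W + 1
      omega
  · have hn : ∀ i, ((((W : ℤ) + 1 + m i).toNat : ℕ) : ℤ) = (W : ℤ) + 1 + m i := by
      intro i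
      have h1 := abs_le.mp (hsz i)
      exact Int.toNat_of_nonneg (by linarith)
    have hpr : (Q : ℤ) ∣ (∏ i ∈ range s, (1 + nd i * P) ^ (((W : ℤ) + 1 + m i).toNat)) - 1 :=
      sub_one_prod _ _ (fun i _ => sub_one_pow (hx i) _)
    rw [← EE_dvd_iff hQ hodd N N (sub_one_mul hu hpr)]
    have f1 : EE Q N (u * ∏ i ∈ range s, (1 + nd i * P) ^ (((W : ℤ) + 1 + m i).toNat)) ≡
        EE Q N u + ∑ i ∈ range s, ((W : ℤ) + 1 + m i) * EE Q N (1 + nd i * P)
        [ZMOD (Q : ℤ) ^ N] := by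
      refine (EE_mul hQ hodd N hu hpr).trans ?_
      apply Int.ModEq.add_left
      refine (EE_prod hQ hodd N s (fun i => (1 + nd i * P) ^ (((W : ℤ) + 1 + m i).toNat))
        (fun i => sub_one_pow (hx i) _)).trans ?_
      apply Int.ModEq.sum
      intro i _
      rw [← hn i]
      exact EE_pow hQ hodd N (hx i) _
    have f2 : EE Q N u + ∑ i ∈ range s, ((W : ℤ) + 1 + m i) * EE Q N (1 + nd i * P) =
        -(T - ∑ l ∈ range (s + 1), τ l * ∑ i ∈ range s, g l i * EE Q N (1 + nd i * P)) := by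
      have g1 : ∑ i ∈ range s, ((W : ℤ) + 1 + m i) * EE Q N (1 + nd i * P) =
          ((W : ℤ) + 1) * ∑ i ∈ range s, EE Q N (1 + nd i * P) +
          ∑ i ∈ range s, m i * EE Q N (1 + nd i * P) := by
        rw [mul_sum, ← sum_add_distrib]
        exact sum_congr rfl (fun i _ => by ring)
      have g2 : ∑ l ∈ range (s + 1), τ l * ∑ i ∈ range s, g l i * EE Q N (1 + nd i * P) =
          ∑ i ∈ range s, m i * EE Q N (1 + nd i * P) := by
        simp_rw [mul_sum]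
        rw [sum_comm]
        apply sum_congr rfl
        intro i _
        rw [hm, sum_mul]
        exact sum_congr rfl (fun l _ => by ring)
      rw [g1, g2, hT]
      ring
    rw [f2] at f1
    have f3 : (Q : ℤ) ^ N ∣ -(T - ∑ l ∈ range (s + 1), τ l *
        ∑ i ∈ range s, g l i * EE Q N (1 + nd i * P)) := by
      apply Dvd.dvd.neg_right
      exact hdiv
    exact Int.modEq_zero_iff_dvd.mp (f1.trans (Int.modEq_zero_iff_dvd.mpr f3))

end Pool.Agent.Helper81.FE
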