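import Mathlib
import Pool.Agent.Helper81.FE.Lin

/-!
# The triple
-/

set_option autoImplicit false

namespace Pool.Agent.Helper81.FE

open Finset

theorem nd_nat (i : ℕ) : nd i = ((i + 1 : ℕ) : ℤ) := by
  unfold nd
  push_cast
  ring

theorem rad_le_of_primes {m n : ℕ} (hm : m ≠ 0) (h : ∀ p : ℕ, p.Prime → p ∣ n → p ∣ m) :
    ∏ p ∈ n.primeFactors, p ≤ m := by
  have h1 : n.primeFactors ⊆ m.primeFactors := by
    intro p hp
    rw [Nat.mem_primeFactors] at hp ⊢
    exact ⟨hp.1, h p hp.1 hp.2.1, hm⟩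
  calc ∏ p ∈ n.primeFactors, p ≤ ∏ p ∈ m.primeFactors, p :=
        prod_le_prod_of_subset_of_one_le' h1 (fun p hp _ => (Nat.prime_of_mem_primeFactors hp).one_le)
    _ ≤ m := Nat.le_of_dvd (Nat.pos_of_ne_zero hm) (Nat.prod_primeFactors_dvd m)

theorem triple (s : ℕ) {Q : ℕ} (hQ : Q.Prime) (a : ℕ) (ha : 1 ≤ a) (haQ : a < Q) (ν B : ℕ)
    (hsol : Nat.Coprime a Q → ∀ u : ℤ, (Q : ℤ) ∣ u - 1 →
      ∃ n : ℕ → ℕ, (∀ i < s, 1 ≤ n i ∧ n i ≤ B) ∧
        (Q : ℤ) ^ (ν + 1) ∣ u * ∏ i ∈ range s, (1 + nd i * (a * Q)) ^ n i - 1) :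
    ∃ b c : ℕ, 0 < b ∧ a + b = c ∧ Nat.Coprime a b ∧ Q ≤ c ∧
      c ≤ (a + Q) * ∏ i ∈ range s, (1 + (i + 1) * (a * Q)) ^ B ∧
      (∏ p ∈ (a * b * c).primeFactors, p) * Q ^ ν ≤
        a * (c * ((a + Q) * ∏ i ∈ range s, (1 + (i + 1) * (a * Q)))) := by
  have haQc : Nat.Coprime a Q :=
    ((Nat.Prime.coprime_iff_not_dvd hQ).mpr (Nat.not_dvd_of_pos_of_lt ha haQ)).symm
  -- inverse of `a`
  have hcop : IsCoprime (a : ℤ) ((Q : ℤ) ^ (ν + 1)) :=
    (Nat.isCoprime_iff_coprime.mpr haQc).pow_right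
  obtain ⟨a', z, haz⟩ := hcop
  have hu : (Q : ℤ) ∣ ((a : ℤ) + Q) * a' - 1 := by
    refine ⟨a' - z * (Q : ℤ) ^ ν, ?_⟩
    have h1 : (Q : ℤ) ^ (ν + 1) = (Q : ℤ) ^ ν * Q := pow_succ _ _
    rw [h1] at haz
    linear_combination haz
  obtain ⟨n, hn, hd⟩ := hsol haQc _ hu
  set x : ℕ → ℕ := fun i => 1 + (i + 1) * (a * Q) with hx
  have hx1 : ∀ i, 1 ≤ x i := fun i => by
    rw [hx]
    exact Nat.le_add_right 1 _
  have hxi : ∀ i, ((x i : ℕ) : ℤ) = 1 + nd i * ((a : ℤ) * Q) := by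
    intro i
    rw [hx, nd_nat]
    push_cast
    ring
  have hpos : ∀ i ∈ range s, 1 ≤ x i ^ n i := fun i _ => Nat.one_le_pow _ _ (hx1 i)
  have hprod1 : 1 ≤ ∏ i ∈ range s, x i ^ n i := Finset.one_le_prod' hpos
  set c : ℕ := (a + Q) * ∏ i ∈ range s, x i ^ n i with hc
  have hcQ : a + Q ≤ c := Nat.le_mul_of_pos_right _ hprod1
  have hac : a < c := by
    have := hQ.pos
    omega
  have hcZ : (c : ℤ) = ((a : ℤ) + Q) * ∏ i ∈ range s, (1 + nd i * ((a : ℤ) * Q)) ^ n i := by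
    have h1 : ((∏ i ∈ range s, x i ^ n i : ℕ) : ℤ) =
        ∏ i ∈ range s, (1 + nd i * ((a : ℤ) * Q)) ^ n i := by
      rw [Nat.cast_prod]
      apply prod_congr rfl
      intro i _
      rw [Nat.cast_pow, hxi i]
    rw [hc, Nat.cast_mul, Nat.cast_add, h1]
  have hdc : (Q : ℤ) ^ (ν + 1) ∣ (c : ℤ) - a := by
    obtain ⟨r, hr⟩ := hd
    rw [mul_right_comm, ← hcZ] at hr
    refine ⟨a * r + z * c, ?_⟩
    linear_combination (a : ℤ) * hr - (c : ℤ) * haz
  obtain ⟨b, hb⟩ : ∃ b, a + b = c := ⟨c - a, by omega⟩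
  have hb0 : 0 < b := by omega
  have hdb : Q ^ (ν + 1) ∣ b := by
    have h1 : (c : ℤ) - a = (b : ℤ) := by
      rw [← hb]
      push_cast
      ring
    rw [h1] at hdc
    exact_mod_cast hdc
  have hcopc : Nat.Coprime a c := by
    rw [hc]
    apply Nat.Coprime.mul_right
    · rw [Nat.coprime_self_add_right]
      exact haQc
    · apply Nat.Coprime.prod_right
      intro i _
      apply Nat.Coprime.pow_right
      have h1 : x i = 1 + a * ((i + 1) * Q) := by
        rw [hx]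
        ring
      rw [h1, Nat.coprime_add_mul_left_right]
      exact Nat.coprime_one_right a
  have hcopb : Nat.Coprime a b := by
    rw [← hb] at hcopc
    rwa [Nat.coprime_self_add_right] at hcopc
  refine ⟨b, c, hb0, hb, hcopb, by omega, ?_, ?_⟩
  · rw [hc]
    apply Nat.mul_le_mul_left
    apply prod_le_prod'
    intro i hi
    exact Nat.pow_le_pow_right (hx1 i) (hn i (mem_range.mp hi)).2
  · obtain ⟨b₂, hb₂⟩ := hdb
    set X : ℕ := (a + Q) * ∏ i ∈ range s, x i with hX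
    have hX0 : X ≠ 0 := by
      rw [hX]
      have h1 : ∏ i ∈ range s, x i ≠ 0 := prod_ne_zero_iff.mpr (fun i _ => by
        have := hx1 i
        omega)
      have h2 : a + Q ≠ 0 := by omega
      exact mul_ne_zero h2 h1
    have hb₂0 : b₂ ≠ 0 := by
      rintro rfl
      omega
    have hcX : ∀ p : ℕ, p.Prime → p ∣ c → p ∣ X := by
      intro p hp hpc
      rw [hc] at hpc
      rw [hX]
      rcases (Nat.Prime.dvd_mul hp).mp hpc with h | h
      · exact h.mul_right _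
      · obtain ⟨i, hi, hpi⟩ := (Prime.dvd_finsetProd_iff hp.prime _).mp h
        have h2 := hp.dvd_of_dvd_pow hpi
        exact (h2.trans (dvd_prod_of_mem _ hi)).mul_left _
    have hrad : ∏ p ∈ (a * b * c).primeFactors, p ≤ a * (Q * b₂) * X := by
      apply rad_le_of_primes
      · have := hQ.ne_zero
        have ha0 : a ≠ 0 := by omega
        exact mul_ne_zero (mul_ne_zero ha0 (mul_ne_zero this hb₂0)) hX0
      · intro p hp hpd
        rcases (Nat.Prime.dvd_mul hp).mp hpd with h | h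
        · rcases (Nat.Prime.dvd_mul hp).mp h with h | h
          · exact (h.mul_right _).mul_right _
          · apply Dvd.dvd.mul_right
            apply Dvd.dvd.mul_left
            rw [hb₂] at h
            rcases (Nat.Prime.dvd_mul hp).mp h with h | h
            · exact (hp.dvd_of_dvd_pow h).mul_right _
            · exact h.mul_left _
        · exact (hcX p hp h).mul_left _
    have hbc : b ≤ c := by omega
    calc (∏ p ∈ (a * b * c).primeFactors, p) * Q ^ ν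
        ≤ (a * (Q * b₂) * X) * Q ^ ν := Nat.mul_le_mul_right _ hrad
      _ = a * (b * X) := by
          rw [hb₂, pow_succ]
          ring
      _ ≤ a * (c * X) := Nat.mul_le_mul_left _ (Nat.mul_le_mul_right _ hbc)

end Pool.Agent.Helper81.FE
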