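import Mathlib
import Pool.Agent.Helper81.FE.Triple

/-!
# Many triples
-/

set_option autoImplicit false

namespace Pool.Agent.Helper81.FE

open Finset

/-- The generators. -/
def gx (A Q i : ℕ) : ℕ := 1 + (i + 1) * (A * Q)

theorem gx_pos (A Q i : ℕ) : 1 ≤ gx A Q i := Nat.le_add_right 1 _

theorem gx_int (A Q i : ℕ) : ((gx A Q i : ℕ) : ℤ) = 1 + nd i * ((A : ℤ) * Q) := by
  unfold gx
  rw [nd_nat]
  push_cast
  ring

theorem core (s : ℕ) {Q : ℕ} (hQ : Q.Prime) (a A : ℕ) (ha : 1 ≤ a) (haQ : a < Q) (haA : a ∣ A)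
    (ν : ℕ) (n : ℕ → ℕ)
    (hd : (Q : ℤ) ^ (ν + 1) ∣ ((a : ℤ) + Q) * ∏ i ∈ range s, (1 + nd i * ((A : ℤ) * Q)) ^ n i - a) :
    ∃ b : ℕ, 0 < b ∧ a + b = (a + Q) * ∏ i ∈ range s, gx A Q i ^ n i ∧ Nat.Coprime a b ∧
      (∏ p ∈ (a * b * (a + b)).primeFactors, p) * Q ^ ν ≤
        a * ((a + b) * ((a + Q) * ∏ i ∈ range s, gx A Q i)) := by
  have haQc : Nat.Coprime a Q :=
    ((Nat.Prime.coprime_iff_not_dvd hQ).mpr (Nat.not_dvd_of_pos_of_lt ha haQ)).symm
  have hpos : ∀ i ∈ range s, 1 ≤ gx A Q i ^ n i := fun i _ => Nat.one_le_pow _ _ (gx_pos A Q i)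
  have hprod1 : 1 ≤ ∏ i ∈ range s, gx A Q i ^ n i := Finset.one_le_prod' hpos
  obtain ⟨c, hc⟩ : ∃ c : ℕ, c = (a + Q) * ∏ i ∈ range s, gx A Q i ^ n i := ⟨_, rfl⟩
  have hcQ : a + Q ≤ c := by
    rw [hc]
    exact Nat.le_mul_of_pos_right _ hprod1
  have hac : a < c := by
    have := hQ.pos
    omega
  have hcZ : (c : ℤ) = ((a : ℤ) + Q) * ∏ i ∈ range s, (1 + nd i * ((A : ℤ) * Q)) ^ n i := by
    have h1 : ((∏ i ∈ range s, gx A Q i ^ n i : ℕ) : ℤ) =
        ∏ i ∈ range s, (1 + nd i * ((A : ℤ) * Q)) ^ n i := by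
      rw [Nat.cast_prod]
      apply prod_congr rfl
      intro i _
      rw [Nat.cast_pow, gx_int]
    rw [hc, Nat.cast_mul, Nat.cast_add, h1]
  rw [← hcZ] at hd
  obtain ⟨b, hb⟩ : ∃ b, a + b = c := ⟨c - a, by omega⟩
  have hb0 : 0 < b := by omega
  have hdb : Q ^ (ν + 1) ∣ b := by
    have h1 : (c : ℤ) - a = (b : ℤ) := by
      rw [← hb]
      push_cast
      ring
    rw [h1] at hd
    exact_mod_cast hd
  have hcopc : Nat.Coprime a c := by
    rw [hc]
    apply Nat.Coprime.mul_right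
    · rw [Nat.coprime_self_add_right]
      exact haQc
    · apply Nat.Coprime.prod_right
      intro i _
      apply Nat.Coprime.pow_right
      obtain ⟨e, he⟩ := haA
      have h1 : gx A Q i = 1 + a * ((i + 1) * (e * Q)) := by
        unfold gx
        rw [he]
        ring
      rw [h1, Nat.coprime_add_mul_left_right]
      exact Nat.coprime_one_right a
  have hcopb : Nat.Coprime a b := by
    rw [← hb] at hcopc
    rwa [Nat.coprime_self_add_right] at hcopc
  refine ⟨b, hb0, hb.trans hc, hcopb, ?_⟩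
  rw [hb]
  obtain ⟨b₂, hb₂⟩ := hdb
  obtain ⟨X, hX⟩ : ∃ X : ℕ, X = (a + Q) * ∏ i ∈ range s, gx A Q i := ⟨_, rfl⟩
  rw [← hX]
  have hX0 : X ≠ 0 := by
    rw [hX]
    have h1 : ∏ i ∈ range s, gx A Q i ≠ 0 := prod_ne_zero_iff.mpr (fun i _ => by
      have := gx_pos A Q i
      omega)
    have h2 : a + Q ≠ 0 := by omega
    exact mul_ne_zero h2 h1
  have hb₂0 : b₂ ≠ 0 := by
    rintro rfl
    omega
  have hcX : ∀ p : ℕ, p.Prime → p ∣ c → p ∣ X := by
    intro p hp hpc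
    rw [hc] at hpc
    rw [hX]
    rcases (Nat.Prime.dvd_mul hp).mp hpc with h | h
    · exact h.mul_right _
    · obtain ⟨i, hi, hpi⟩ := (Prime.dvd_finsetProd_iff hp.prime _).mp h
      have h2 := hp.dvd_of_dvd_pow hpi
      exact (h2.trans (dvd_prod_of_mem _ hi)).mul_left _
  have hrad : ∏ p ∈ (a * b * c).primeFactors, p ≤ a * (Q * b₂) * X := by
    apply rad_le_of_primes
    · have := hQ.ne_zero
      have ha0 : a ≠ 0 := by omega
      exact mul_ne_zero (mul_ne_zero ha0 (mul_ne_zero this hb₂0)) hX0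
    · intro p hp hpd
      rcases (Nat.Prime.dvd_mul hp).mp hpd with h | h
      · rcases (Nat.Prime.dvd_mul hp).mp h with h | h
        · exact (h.mul_right _).mul_right _
        · apply Dvd.dvd.mul_right
          apply Dvd.dvd.mul_left
          rw [hb₂] at h
          rcases (Nat.Prime.dvd_mul hp).mp h with h | h
          · exact (hp.dvd_of_dvd_pow h).mul_right _
          · exact h.mul_left _
      · exact (hcX p hp h).mul_left _
  have hbc : b ≤ c := by omega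
  calc (∏ p ∈ (a * b * c).primeFactors, p) * Q ^ ν
      ≤ (a * (Q * b₂) * X) * Q ^ ν := Nat.mul_le_mul_right _ hrad
    _ = a * (b * X) := by
        rw [hb₂, pow_succ]
        ring
    _ ≤ a * (c * X) := Nat.mul_le_mul_left _ (Nat.mul_le_mul_right _ hbc)

theorem gx_coprime (A Q s : ℕ) (hA : ∀ k : ℕ, 1 ≤ k → k ≤ s → k ∣ A) {i j : ℕ} (hi : i < s)
    (hj : j < s) (hij : i ≠ j) : Nat.Coprime (gx A Q i) (gx A Q j) := by
  wlog h : i < j generalizing i j
  · exact (this hj hi hij.symm (by omega)).symm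
  apply Nat.coprime_of_dvd
  intro p hp h1 h2
  have h3 : gx A Q j = gx A Q i + (j - i) * (A * Q) := by
    unfold gx
    have h4 : j + 1 = (i + 1) + (j - i) := by omega
    rw [h4]
    ring
  rw [h3] at h2
  have h5 : p ∣ (j - i) * (A * Q) := (Nat.dvd_add_right h1).mp h2
  have h6 : p ∣ A * Q := by
    rcases (Nat.Prime.dvd_mul hp).mp h5 with h | h
    · exact (h.trans (hA (j - i) (by omega) (by omega))).mul_right _
    · exact h
  have h7 : p ∣ 1 := by
    have h8 : gx A Q i = (i + 1) * (A * Q) + 1 := by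
      unfold gx
      ring
    rw [h8] at h1
    exact (Nat.dvd_add_right (h6.mul_left _)).mp h1
  exact hp.one_lt.ne' (Nat.dvd_one.mp h7)

theorem prod_pow_inj (s : ℕ) (x : ℕ → ℕ) (hx : ∀ i < s, 1 < x i)
    (hc : ∀ i < s, ∀ j < s, i ≠ j → Nat.Coprime (x i) (x j)) (m m' : ℕ → ℕ)
    (h : ∏ i ∈ range s, x i ^ m i = ∏ i ∈ range s, x i ^ m' i) : ∀ i < s, m i = m' i := by
  have key : ∀ m m' : ℕ → ℕ, ∏ i ∈ range s, x i ^ m i = ∏ i ∈ range s, x i ^ m' i →
      ∀ i < s, m' i ≤ m i := by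
    intro m m' h i hi
    have h1 : x i ^ m' i ∣ ∏ i ∈ range s, x i ^ m i := by
      rw [h]
      exact dvd_prod_of_mem (fun i => x i ^ m' i) (mem_range.mpr hi)
    rw [← mul_prod_erase _ _ (mem_range.mpr hi)] at h1
    have h2 : Nat.Coprime (x i ^ m' i) (∏ j ∈ (range s).erase i, x j ^ m j) := by
      apply Nat.Coprime.prod_right
      intro j hj
      have hj1 : j ≠ i := (mem_erase.mp hj).1
      have hj2 : j < s := mem_range.mp (mem_erase.mp hj).2
      exact Nat.Coprime.pow _ _ (hc i hi j hj2 hj1.symm)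
    have h3 := h2.dvd_of_dvd_mul_right h1
    exact (Nat.pow_dvd_pow_iff_le_right (hx i hi)).mp h3
  intro i hi
  exact le_antisymm (key m' m h.symm i hi) (key m m' h i hi)

/-- Extension of a vector by zero. -/
def extN {s : ℕ} (v : Fin s → ℕ) (i : ℕ) : ℕ := if h : i < s then v ⟨i, h⟩ else 0

theorem extN_lt {s : ℕ} (v : Fin s → ℕ) {i : ℕ} (h : i < s) : extN v i = v ⟨i, h⟩ := by
  unfold extN
  rw [dif_pos h]

theorem many (s : ℕ) {Q : ℕ} (hQ : Q.Prime) (a A : ℕ) (ha : 1 ≤ a) (haQ : a < Q) (haA : a ∣ A)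
    (hA0 : 1 ≤ A) (hA : ∀ k : ℕ, 1 ≤ k → k ≤ s → k ∣ A) (ν B V : ℕ)
    (hsol : ∀ u : ℤ, (Q : ℤ) ∣ u - 1 → ∃ n : ℕ → ℕ, (∀ i < s, 1 ≤ n i ∧ n i ≤ B) ∧
        (Q : ℤ) ^ (ν + 1) ∣ u * ∏ i ∈ range s, (1 + nd i * (A * Q)) ^ n i - 1) :
    ∃ F : Finset ℕ, V ^ s ≤ B ^ s * F.card ∧ ∀ b ∈ F, 0 < b ∧ Nat.Coprime a b ∧
      a + b ≤ (a + Q) * ∏ i ∈ range s, gx A Q i ^ (V + B) ∧
      (∏ p ∈ (a * b * (a + b)).primeFactors, p) * Q ^ ν ≤
        a * ((a + b) * ((a + Q) * ∏ i ∈ range s, gx A Q i)) := by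
  have haQc : Nat.Coprime a Q :=
    ((Nat.Prime.coprime_iff_not_dvd hQ).mpr (Nat.not_dvd_of_pos_of_lt ha haQ)).symm
  have hcop : IsCoprime (a : ℤ) ((Q : ℤ) ^ (ν + 1)) :=
    (Nat.isCoprime_iff_coprime.mpr haQc).pow_right
  obtain ⟨a', z, haz⟩ := hcop
  have hx1 : ∀ i, (Q : ℤ) ∣ (1 + nd i * ((A : ℤ) * Q)) - 1 := by
    intro i
    refine ⟨nd i * A, ?_⟩
    ring
  have hu : ∀ v : ℕ → ℕ, (Q : ℤ) ∣
      (((a : ℤ) + Q) * a') * ∏ i ∈ range s, (1 + nd i * ((A : ℤ) * Q)) ^ v i - 1 := by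
    intro v
    have h1 : (Q : ℤ) ∣ ((a : ℤ) + Q) * a' - 1 := by
      refine ⟨a' - z * (Q : ℤ) ^ ν, ?_⟩
      have h1 : (Q : ℤ) ^ (ν + 1) = (Q : ℤ) ^ ν * Q := pow_succ _ _
      rw [h1] at haz
      linear_combination haz
    have h2 : (Q : ℤ) ∣ (∏ i ∈ range s, (1 + nd i * ((A : ℤ) * Q)) ^ v i) - 1 := by
      have : ∀ t : ℕ, (Q : ℤ) ∣ (∏ i ∈ range t, (1 + nd i * ((A : ℤ) * Q)) ^ v i) - 1 := by
        intro t
        induction t with
        | zero => simp
        | succ t ih =>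
          rw [prod_range_succ]
          have h3 : (Q : ℤ) ∣ (1 + nd t * ((A : ℤ) * Q)) ^ v t - 1 := by
            have := sub_dvd_pow_sub_pow (1 + nd t * ((A : ℤ) * Q)) 1 (v t)
            rw [one_pow] at this
            exact (hx1 t).trans this
          obtain ⟨r1, hr1⟩ := ih
          obtain ⟨r2, hr2⟩ := h3
          refine ⟨r1 * (1 + nd t * ((A : ℤ) * Q)) ^ v t + r2, ?_⟩
          linear_combination (1 + nd t * ((A : ℤ) * Q)) ^ v t * hr1 + hr2
      exact this s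
    obtain ⟨r1, hr1⟩ := h1
    obtain ⟨r2, hr2⟩ := h2
    refine ⟨r1 * (∏ i ∈ range s, (1 + nd i * ((A : ℤ) * Q)) ^ v i) + r2, ?_⟩
    linear_combination (∏ i ∈ range s, (1 + nd i * ((A : ℤ) * Q)) ^ v i) * hr1 + hr2
  choose n hn hnd using fun v : ℕ → ℕ => hsol _ (hu v)
  have hcore : ∀ v : ℕ → ℕ, (Q : ℤ) ^ (ν + 1) ∣
      ((a : ℤ) + Q) * ∏ i ∈ range s, (1 + nd i * ((A : ℤ) * Q)) ^ (v i + n v i) - a := by
    intro v
    obtain ⟨r, hr⟩ := hnd v
    have h1 : ∏ i ∈ range s, (1 + nd i * ((A : ℤ) * Q)) ^ (v i + n v i) =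
        (∏ i ∈ range s, (1 + nd i * ((A : ℤ) * Q)) ^ v i) *
        ∏ i ∈ range s, (1 + nd i * ((A : ℤ) * Q)) ^ n v i := by
      rw [← prod_mul_distrib]
      exact prod_congr rfl (fun i _ => pow_add _ _ _)
    rw [h1]
    set R1 := ∏ i ∈ range s, (1 + nd i * ((A : ℤ) * Q)) ^ v i
    set R2 := ∏ i ∈ range s, (1 + nd i * ((A : ℤ) * Q)) ^ n v i
    refine ⟨a * r + z * (((a : ℤ) + Q) * (R1 * R2)), ?_⟩
    linear_combination (a : ℤ) * hr - (((a : ℤ) + Q) * (R1 * R2)) * haz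
  choose b hb0 hbe hbc hbr using fun v : ℕ → ℕ => core s hQ a A ha haQ haA ν
    (fun i => v i + n v i) (hcore v)
  refine ⟨(Fintype.piFinset (fun _ : Fin s => range V)).image (fun v => b (extN v)), ?_, ?_⟩
  · have h1 : (Fintype.piFinset (fun _ : Fin s => range V)).card = V ^ s := by
      rw [Fintype.card_piFinset]
      simp
    rw [← h1]
    apply Finset.card_le_mul_card_image
    intro c _
    have h2 : (Fintype.piFinset (fun _ : Fin s => Icc 1 B)).card = B ^ s := by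
      rw [Fintype.card_piFinset]
      simp
    rw [← h2]
    apply Finset.card_le_card_of_injOn (fun v => fun i : Fin s => n (extN v) i)
    · intro v _
      rw [mem_coe, Fintype.mem_piFinset]
      intro i
      rw [mem_Icc]
      exact hn (extN v) i i.isLt
    · intro v hv v' hv' hvv
      rw [mem_coe, mem_filter] at hv hv'
      have h3 : b (extN v) = b (extN v') := by
        rw [hv.2, hv'.2]
      have h4 : (a + Q) * ∏ i ∈ range s, gx A Q i ^ (extN v i + n (extN v) i) =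
          (a + Q) * ∏ i ∈ range s, gx A Q i ^ (extN v' i + n (extN v') i) := by
        rw [← hbe (extN v), ← hbe (extN v'), h3]
      have h5 := Nat.eq_of_mul_eq_mul_left (by omega : 0 < a + Q) h4
      have h6 := prod_pow_inj s (gx A Q) (fun i _ => by
        unfold gx
        have := hQ.pos
        have h7 : 0 < (i + 1) * (A * Q) := by positivity
        omega) (fun i hi j hj hij => gx_coprime A Q s hA hi hj hij)
        (fun i => extN v i + n (extN v) i) (fun i => extN v' i + n (extN v') i) h5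
      funext i
      have h7 := h6 i i.isLt
      have h8 : n (extN v) i = n (extN v') i := congrFun hvv i
      rw [h8, extN_lt v i.isLt, extN_lt v' i.isLt] at h7
      simpa using h7
  · intro c hc
    rw [mem_image] at hc
    obtain ⟨v, hv, rfl⟩ := hc
    rw [Fintype.mem_piFinset] at hv
    refine ⟨hb0 _, hbc _, ?_, hbr _⟩
    rw [hbe]
    apply Nat.mul_le_mul_left
    apply prod_le_prod'
    intro i hi
    have hi' := mem_range.mp hi
    apply Nat.pow_le_pow_right (gx_pos A Q i)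
    have h1 : extN v i < V := by
      rw [extN_lt v hi']
      exact mem_range.mp (hv _)
    have h2 := (hn (extN v) i hi').2
    omega

end Pool.Agent.Helper81.FE
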