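import Mathlib
import Pool.Agent.Helper81.FE.Many
import Pool.Agent.Helper81.FE.Chain

/-!
# Choice of the parameters, counting form
-/

set_option autoImplicit false

namespace Pool.Agent.Helper81.FE

open Finset

theorem lcm_bound (s : ℕ) : Nat.lcmUpto s ≤ 2 ^ (8 * s) := by
  have h1 := Chebyshev.psi_le_const_mul_self (x := (s : ℝ)) (Nat.cast_nonneg s)
  rw [Chebyshev.psi_eq_log_lcmUpto] at h1
  have h2 : (0 : ℝ) < (Nat.lcmUpto s : ℝ) := by exact_mod_cast Nat.lcmUpto_pos s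
  have h3 : Real.log 4 = 2 * Real.log 2 := by
    rw [show (4 : ℝ) = 2 ^ 2 by norm_num, Real.log_pow]
    norm_num
  have h4 := Real.log_two_gt_d9
  have h5 : (Real.log 4 + 4) * (s : ℝ) ≤ Real.log (2 ^ (8 * s)) := by
    rw [Real.log_pow, h3]
    push_cast
    have h6 : (0 : ℝ) ≤ s := Nat.cast_nonneg s
    nlinarith
  have h6 := (Real.log_le_log_iff h2 (by positivity)).mp (h1.trans h5)
  exact_mod_cast h6

theorem succ_le_two_pow (s : ℕ) : s + 1 ≤ 2 ^ s := by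
  have : s < 2 ^ s := Nat.lt_two_pow_self
  omega

/-- The parameter `a` times the least common multiple. -/
def AA (s a : ℕ) : ℕ := a * Nat.lcmUpto s

theorem AA_le (s a : ℕ) (ha : a ≤ 2 ^ s) : AA s a ≤ 2 ^ (9 * s) := by
  unfold AA
  calc a * Nat.lcmUpto s ≤ 2 ^ s * 2 ^ (8 * s) := Nat.mul_le_mul ha (lcm_bound s)
    _ = 2 ^ (9 * s) := by ring

theorem gx_le (s a Q i : ℕ) (hi : i < s) (ha : a ≤ 2 ^ s) (ha1 : 1 ≤ a) (hQ : 1 ≤ Q) :
    gx (AA s a) Q i ≤ 2 ^ (10 * s) * Q := by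
  have h1 := AA_le s a ha
  have hs1 := succ_le_two_pow s
  have h0 : 1 ≤ AA s a := by
    unfold AA
    exact Nat.one_le_iff_ne_zero.mpr (mul_ne_zero (by omega) (Nat.lcmUpto_ne_zero s))
  have h2 : 1 ≤ AA s a * Q := Nat.one_le_iff_ne_zero.mpr (mul_ne_zero (by omega) (by omega))
  unfold gx
  calc 1 + (i + 1) * (AA s a * Q) ≤ AA s a * Q + (i + 1) * (AA s a * Q) := by omega
    _ = (i + 2) * (AA s a * Q) := by ring
    _ ≤ (s + 1) * (AA s a * Q) := Nat.mul_le_mul_right _ (by omega)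
    _ ≤ 2 ^ s * (2 ^ (9 * s) * Q) := Nat.mul_le_mul hs1 (Nat.mul_le_mul_right _ h1)
    _ = 2 ^ (10 * s) * Q := by ring

theorem cost_bound (s a Q : ℕ) (ha1 : 1 ≤ a) (ha : a ≤ 2 ^ s) (haQ : a < Q) :
    a * ((a + Q) * ∏ i ∈ range s, gx (AA s a) Q i) ≤ 2 ^ (10 * s ^ 2 + s + 1) * Q ^ (s + 1) := by
  have h1 : ∏ i ∈ range s, gx (AA s a) Q i ≤ ∏ i ∈ range s, (2 ^ (10 * s) * Q) := by
    apply prod_le_prod'
    intro i hi
    exact gx_le s a Q i (mem_range.mp hi) ha ha1 (by omega)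
  have h3 : ∏ i ∈ range s, (2 ^ (10 * s) * Q) = 2 ^ (10 * s ^ 2) * Q ^ s := by
    rw [prod_const, card_range, mul_pow, ← pow_mul]
    congr 2
    ring
  have h7 : a * (a + Q) ≤ 2 ^ (s + 1) * Q := by
    calc a * (a + Q) ≤ 2 ^ s * (2 * Q) := Nat.mul_le_mul ha (by omega)
      _ = 2 ^ (s + 1) * Q := by ring
  calc a * ((a + Q) * ∏ i ∈ range s, gx (AA s a) Q i)
      = (a * (a + Q)) * ∏ i ∈ range s, gx (AA s a) Q i := by ring
    _ ≤ (2 ^ (s + 1) * Q) * (2 ^ (10 * s ^ 2) * Q ^ s) := Nat.mul_le_mul h7 (h1.trans h3.le)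
    _ = 2 ^ (10 * s ^ 2 + s + 1) * Q ^ (s + 1) := by ring

/-- The size of the exponents. -/
def WW (s a Q : ℕ) : ℕ :=
  (s + 1) * (Q ^ 2 * (Nat.lcmUpto s ^ 2 * (2 ^ s) ^ 14 * (1 + AA s a * Q)))

theorem WW_le (s a Q : ℕ) (hs : 1 ≤ s) (ha : a ≤ 2 ^ s) (hQ : 1 ≤ Q) :
    WW s a Q ≤ 2 ^ (41 * s) * Q ^ 3 := by
  have h1 := succ_le_two_pow s
  have h2 : Nat.lcmUpto s ^ 2 ≤ 2 ^ (16 * s) := by
    calc Nat.lcmUpto s ^ 2 ≤ (2 ^ (8 * s)) ^ 2 := Nat.pow_le_pow_left (lcm_bound s) 2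
      _ = 2 ^ (16 * s) := by
        rw [← pow_mul]
        congr 1
        ring
  have h3 : 1 + AA s a * Q ≤ 2 ^ (10 * s) * Q := by
    have h4 := AA_le s a ha
    have h5 : 2 ^ (9 * s) + 1 ≤ 2 ^ (10 * s) := by
      have h6 : 2 ^ (10 * s) = 2 ^ s * 2 ^ (9 * s) := by ring
      have h7 : 2 ≤ 2 ^ s := by omega
      have h8 : 1 ≤ 2 ^ (9 * s) := Nat.one_le_two_pow
      rw [h6]
      nlinarith
    calc 1 + AA s a * Q ≤ Q + AA s a * Q := by omega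
      _ = (AA s a + 1) * Q := by ring
      _ ≤ 2 ^ (10 * s) * Q := Nat.mul_le_mul_right _ (by omega)
  unfold WW
  calc (s + 1) * (Q ^ 2 * (Nat.lcmUpto s ^ 2 * (2 ^ s) ^ 14 * (1 + AA s a * Q)))
      ≤ 2 ^ s * (Q ^ 2 * (2 ^ (16 * s) * (2 ^ s) ^ 14 * (2 ^ (10 * s) * Q))) := by
        gcongr
    _ = 2 ^ (41 * s) * Q ^ 3 := by ring

theorem size_bound (s a Q c B : ℕ) (hs : 35 ≤ s) (ha1 : 1 ≤ a) (ha : a ≤ 2 ^ s)
    (hQl : 2 ^ (32 * s) ≤ Q) (hQr : Q ≤ 2 * 2 ^ (32 * s)) (hc0 : 0 < c)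
    (hB : B = 2 * WW s a Q + 1)
    (hc : c ≤ (a + Q) * ∏ i ∈ range s, gx (AA s a) Q i ^ (B * Q + B)) :
    Real.log c ≤ 2 ^ (173 * s) := by
  have hs1 := succ_le_two_pow s
  have hQ2 : 2 ^ (10 * s) ≤ Q := (Nat.pow_le_pow_right (by norm_num) (by omega)).trans hQl
  have hQ3 : 2 ^ s ≤ Q := (Nat.pow_le_pow_right (by norm_num) (by omega)).trans hQl
  have hQ1 : 2 ≤ Q := by omega
  have hWle := WW_le s a Q (by omega) ha (by omega)
  have hZ1 : 1 ≤ 2 ^ (41 * s) * Q ^ 3 := Nat.one_le_iff_ne_zero.mpr (by positivity)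
  have hB3 : B ≤ 3 * (2 ^ (41 * s) * Q ^ 3) := by omega
  have hB1 : 1 ≤ B := by omega
  have h1 : ∏ i ∈ range s, gx (AA s a) Q i ^ (B * Q + B) ≤ (Q ^ 2) ^ (s * (B * Q + B)) := by
    have h2 : ∀ i ∈ range s, gx (AA s a) Q i ^ (B * Q + B) ≤ (Q ^ 2) ^ (B * Q + B) := by
      intro i hi
      apply Nat.pow_le_pow_left
      calc gx (AA s a) Q i ≤ 2 ^ (10 * s) * Q := gx_le s a Q i (mem_range.mp hi) ha ha1 (by omega)
        _ ≤ Q * Q := Nat.mul_le_mul_right _ hQ2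
        _ = Q ^ 2 := by ring
    refine (prod_le_prod' h2).trans (le_of_eq ?_)
    rw [prod_const, card_range, ← pow_mul, ← pow_mul, ← pow_mul]
    congr 1
    ring
  have h2 : a + Q ≤ Q ^ 2 := by nlinarith
  have h3 : c ≤ Q ^ (2 * (1 + s * (B * Q + B))) := by
    refine hc.trans ((Nat.mul_le_mul h2 h1).trans (le_of_eq ?_))
    rw [← pow_succ', ← pow_mul, Nat.add_comm (s * (B * Q + B)) 1]
  have hQR : (1 : ℝ) ≤ (Q : ℝ) := by
    have : 1 ≤ Q := by omega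
    exact_mod_cast this
  have h4 : Real.log c ≤ ((2 * (1 + s * (B * Q + B)) : ℕ) : ℝ) * Real.log Q := by
    rw [← Real.log_pow]
    apply Real.log_le_log (by exact_mod_cast hc0)
    exact_mod_cast h3
  have h5 : 2 * (1 + s * (B * Q + B)) ≤ 2 ^ (42 * s) * Q ^ 4 := by
    have g1 : B * Q + B ≤ 2 * (B * Q) := by nlinarith
    have g2 : 1 ≤ s * (B * Q) := Nat.one_le_iff_ne_zero.mpr (by positivity)
    have g3 : s * (B * Q + B) ≤ s * (2 * (B * Q)) := Nat.mul_le_mul_left _ g1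
    have g4 : 2 * (1 + s * (B * Q + B)) ≤ 6 * (s * (B * Q)) := by nlinarith
    have g5 : s * (B * Q) ≤ s * (3 * (2 ^ (41 * s) * Q ^ 3) * Q) :=
      Nat.mul_le_mul_left _ (Nat.mul_le_mul_right _ hB3)
    have g6 : 18 * s ≤ 2 ^ s := by
      have g7 : s - 35 + 1 ≤ 2 ^ (s - 35) := succ_le_two_pow (s - 35)
      have g8 : 2 ^ s = 2 ^ 35 * 2 ^ (s - 35) := by
        rw [← pow_add]
        congr 1
        omega
      rw [g8]
      omega
    calc 2 * (1 + s * (B * Q + B)) ≤ 6 * (s * (B * Q)) := g4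
      _ ≤ 6 * (s * (3 * (2 ^ (41 * s) * Q ^ 3) * Q)) := Nat.mul_le_mul_left _ g5
      _ = (18 * s) * (2 ^ (41 * s) * Q ^ 4) := by ring
      _ ≤ 2 ^ s * (2 ^ (41 * s) * Q ^ 4) := Nat.mul_le_mul_right _ g6
      _ = 2 ^ (42 * s) * Q ^ 4 := by ring
  have h6 : ((2 * (1 + s * (B * Q + B)) : ℕ) : ℝ) ≤ 2 ^ (42 * s) * (Q : ℝ) ^ 4 := by
    exact_mod_cast h5
  have hlog0 : 0 ≤ Real.log Q := Real.log_nonneg hQR
  have h7 : Real.log Q ≤ 2 ^ (2 * s) := by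
    have g1 : Real.log Q ≤ Real.log (2 * 2 ^ (32 * s)) := by
      apply Real.log_le_log (by linarith)
      exact_mod_cast hQr
    rw [Real.log_mul (by norm_num) (by positivity), Real.log_pow] at g1
    have g2 := Real.log_two_lt_d9
    have g3 := Real.log_two_gt_d9
    have g4 : 32 * s + 1 ≤ 2 ^ (2 * s) := by
      calc 32 * s + 1 ≤ 2 ^ 5 * 2 ^ s := by omega
        _ ≤ 2 ^ s * 2 ^ s := Nat.mul_le_mul_right _ (Nat.pow_le_pow_right (by norm_num) (by omega))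
        _ = 2 ^ (2 * s) := by ring
    have g5 : (32 * (s : ℝ) + 1) ≤ 2 ^ (2 * s) := by exact_mod_cast g4
    push_cast at g1
    have g6 : (0 : ℝ) ≤ s := Nat.cast_nonneg s
    nlinarith
  have h8 : (Q : ℝ) ^ 4 ≤ (2 * 2 ^ (32 * s)) ^ 4 := by
    apply pow_le_pow_left₀ (by linarith)
    exact_mod_cast hQr
  calc Real.log c ≤ ((2 * (1 + s * (B * Q + B)) : ℕ) : ℝ) * Real.log Q := h4
    _ ≤ (2 ^ (42 * s) * (Q : ℝ) ^ 4) * Real.log Q := mul_le_mul_of_nonneg_right h6 hlog0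
    _ ≤ (2 ^ (42 * s) * (Q : ℝ) ^ 4) * 2 ^ (2 * s) := mul_le_mul_of_nonneg_left h7 (by positivity)
    _ ≤ (2 ^ (42 * s) * (2 * 2 ^ (32 * s)) ^ 4) * 2 ^ (2 * s) := by
        gcongr
    _ = 2 ^ 4 * 2 ^ (172 * s) := by ring
    _ ≤ 2 ^ s * 2 ^ (172 * s) := by
        apply mul_le_mul_of_nonneg_right _ (by positivity)
        exact pow_le_pow_right₀ (by norm_num) (by omega)
    _ = 2 ^ (173 * s) := by ring

theorem exponent_bound (s : ℕ) (hs : 35 ≤ s) (l : ℝ) (hl0 : 0 ≤ l)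
    (hl : l ≤ 173 * ((s : ℝ) + 1) * Real.log 2) :
    l ^ 2 / 1000 ≤ ((22 * s ^ 2 - s - 1 : ℕ) : ℝ) * Real.log 2 := by
  have g2 := Real.log_two_lt_d9
  have g3 := Real.log_two_gt_d9
  have hsR : (35 : ℝ) ≤ s := by exact_mod_cast hs
  have g5 : l ^ 2 ≤ (173 * ((s : ℝ) + 1) * Real.log 2) ^ 2 := pow_le_pow_left₀ hl0 hl 2
  have g6 : ((22 * s ^ 2 - s - 1 : ℕ) : ℝ) = 22 * (s : ℝ) ^ 2 - s - 1 := by
    have h1 : s ≤ 22 * s ^ 2 := by nlinarith
    have h2 : 1 ≤ 22 * s ^ 2 - s := by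
      have : s + 1 ≤ 22 * s ^ 2 := by nlinarith
      omega
    rw [Nat.cast_sub h2, Nat.cast_sub h1]
    push_cast
    ring
  rw [g6, div_le_iff₀ (by norm_num)]
  have g7 : (173 * ((s : ℝ) + 1) * Real.log 2) ^ 2 =
      (29929 * ((s : ℝ) + 1) ^ 2 * Real.log 2) * Real.log 2 := by ring
  rw [g7] at g5
  have g8 : 29929 * ((s : ℝ) + 1) ^ 2 * Real.log 2 ≤ (22 * (s : ℝ) ^ 2 - s - 1) * 1000 := by
    have g9 : 29929 * ((s : ℝ) + 1) ^ 2 * Real.log 2 ≤ 29929 * ((s : ℝ) + 1) ^ 2 * 0.6931471808 :=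
      mul_le_mul_of_nonneg_left g2.le (by positivity)
    nlinarith
  have g10 : (29929 * ((s : ℝ) + 1) ^ 2 * Real.log 2) * Real.log 2 ≤
      ((22 * (s : ℝ) ^ 2 - s - 1) * 1000) * Real.log 2 := mul_le_mul_of_nonneg_right g8 (by linarith)
  linarith

/-- The counting form for given parameters. -/
theorem count_param (s a : ℕ) (hs : 35 ≤ s) (ha1 : 1 ≤ a) (ha : a ≤ 2 ^ s) :
    ∃ F : Finset ℕ, 2 ^ (32 * s ^ 2) ≤ F.card ∧ ∀ b ∈ F, 0 < b ∧ Nat.Coprime a b ∧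
      Real.log ((a + b : ℕ) : ℝ) ≤ 2 ^ (173 * s) ∧
      (∏ p ∈ (a * b * (a + b)).primeFactors, p) * 2 ^ (22 * s ^ 2 - s - 1) ≤ a + b := by
  have hs1 := succ_le_two_pow s
  obtain ⟨Q, hQ, hQl, hQr⟩ := Nat.exists_prime_lt_and_le_two_mul (2 ^ (32 * s)) (by positivity)
  have hsQ : 2 ^ (3 * s) ≤ 2 ^ (32 * s) := Nat.pow_le_pow_right (by norm_num) (by omega)
  have hsQ2 : 2 ^ (3 * s) = 2 ^ s * (2 ^ s * 2 ^ s) := by ring
  have hsQ3 : 2 ^ s * 4 ≤ 2 ^ (3 * s) := by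
    rw [hsQ2]
    apply Nat.mul_le_mul_left
    have h1 : 2 ≤ 2 ^ s := by omega
    calc 4 = 2 * 2 := by norm_num
      _ ≤ 2 ^ s * 2 ^ s := Nat.mul_le_mul h1 h1
  have hQ1 : 2 * s + 4 ≤ Q := by omega
  have hodd : Odd Q := hQ.odd_of_ne_two (by omega)
  have hQ0 : 0 < Q := hQ.pos
  have haQ : a < Q := by omega
  have hQ2 : ((2 : ℤ) ^ s) ^ 3 < (Q : ℤ) := by
    have h1 : (2 ^ s) ^ 3 < Q := by
      calc (2 ^ s) ^ 3 = 2 ^ (3 * s) := by ring
        _ < Q := by omega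
    exact_mod_cast h1
  have hLa : Nat.Coprime (Nat.lcmUpto s) Q := by
    have h1 : Nat.lcmUpto s ∣ s.factorial := Nat.lcmUpto_dvd_factorial s
    have h2 : Nat.Coprime s.factorial Q := by
      have h3 := coprime_fact hQ (show s < Q by omega)
      exact Nat.isCoprime_iff_coprime.mp h3
    exact Nat.Coprime.coprime_dvd_left h1 h2
  have haQc : Nat.Coprime a Q :=
    ((Nat.Prime.coprime_iff_not_dvd hQ).mpr (Nat.not_dvd_of_pos_of_lt ha1 haQ)).symm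
  have hAQ : Nat.Coprime (AA s a) Q := by
    unfold AA
    exact Nat.Coprime.mul_left haQc hLa
  have hdvd : ∀ k : ℕ, 1 ≤ k → k ≤ s → k ∣ Nat.lcmUpto s := by
    intro k hk1 hk2
    unfold Nat.lcmUpto
    exact Finset.dvd_lcm (f := id) (Finset.mem_Icc.mpr ⟨hk1, hk2⟩)
  have hA0 : 1 ≤ AA s a := by
    unfold AA
    exact Nat.one_le_iff_ne_zero.mpr (mul_ne_zero (by omega) (Nat.lcmUpto_ne_zero s))
  obtain ⟨B, hB⟩ : ∃ B, B = 2 * WW s a Q + 1 := ⟨_, rfl⟩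
  obtain ⟨F, hF1, hF2⟩ := many s hQ a (AA s a) ha1 haQ (Dvd.intro _ rfl) hA0
    (fun k hk1 hk2 => (hdvd k hk1 hk2).mul_left a) (2 * s + 1) B (B * Q) (fun u hu => by
      have h1 := solve_two s (by omega) hQ hodd hQ1 hQ2 (AA s a) hAQ (Nat.lcmUpto s)
        (by exact_mod_cast Nat.lcmUpto_pos s)
        (fun k hk1 hk2 => by exact_mod_cast hdvd k hk1 hk2)
        (Nat.isCoprime_iff_coprime.mpr hLa) (WW s a Q) (by
          unfold WW
          push_cast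
          exact le_refl _) u hu
      rw [hB]
      exact h1)
  refine ⟨F, ?_, ?_⟩
  · have h1 : B ^ s * Q ^ s ≤ B ^ s * F.card := by
      rw [← mul_pow]
      exact hF1
    have h2 : Q ^ s ≤ F.card := Nat.le_of_mul_le_mul_left h1 (Nat.pow_pos (by omega))
    calc 2 ^ (32 * s ^ 2) = (2 ^ (32 * s)) ^ s := by
          rw [← pow_mul]
          congr 1
          ring
      _ ≤ Q ^ s := Nat.pow_le_pow_left hQl.le s
      _ ≤ F.card := h2
  · intro b hb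
    obtain ⟨hb0, hcop, hsize, hrad⟩ := hF2 b hb
    refine ⟨hb0, hcop, ?_, ?_⟩
    · exact size_bound s a Q (a + b) B hs ha1 ha hQl.le hQr (by omega) hB hsize
    · have hcost := cost_bound s a Q ha1 ha haQ
      have h2 : ((∏ p ∈ (a * b * (a + b)).primeFactors, p) * Q ^ s) * Q ^ (s + 1) ≤
          ((a + b) * 2 ^ (10 * s ^ 2 + s + 1)) * Q ^ (s + 1) := by
        calc ((∏ p ∈ (a * b * (a + b)).primeFactors, p) * Q ^ s) * Q ^ (s + 1)
            = (∏ p ∈ (a * b * (a + b)).primeFactors, p) * Q ^ (2 * s + 1) := by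
              rw [mul_assoc, ← pow_add]
              congr 2
              omega
          _ ≤ a * ((a + b) * ((a + Q) * ∏ i ∈ range s, gx (AA s a) Q i)) := hrad
          _ = (a + b) * (a * ((a + Q) * ∏ i ∈ range s, gx (AA s a) Q i)) := by ring
          _ ≤ (a + b) * (2 ^ (10 * s ^ 2 + s + 1) * Q ^ (s + 1)) := Nat.mul_le_mul_left _ hcost
          _ = ((a + b) * 2 ^ (10 * s ^ 2 + s + 1)) * Q ^ (s + 1) := by ring
      have h3 := Nat.le_of_mul_le_mul_right h2 (Nat.pow_pos hQ0)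
      have h4 : 2 ^ (32 * s ^ 2) ≤ Q ^ s := by
        calc 2 ^ (32 * s ^ 2) = (2 ^ (32 * s)) ^ s := by
              rw [← pow_mul]
              congr 1
              ring
          _ ≤ Q ^ s := Nat.pow_le_pow_left hQl.le s
      have h5 : ((∏ p ∈ (a * b * (a + b)).primeFactors, p) * 2 ^ (22 * s ^ 2 - s - 1)) *
          2 ^ (10 * s ^ 2 + s + 1) ≤ (a + b) * 2 ^ (10 * s ^ 2 + s + 1) := by
        have hss : s + 1 ≤ 22 * s ^ 2 := by nlinarith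
        calc ((∏ p ∈ (a * b * (a + b)).primeFactors, p) * 2 ^ (22 * s ^ 2 - s - 1)) *
              2 ^ (10 * s ^ 2 + s + 1)
            = (∏ p ∈ (a * b * (a + b)).primeFactors, p) * 2 ^ (32 * s ^ 2) := by
              rw [mul_assoc, ← pow_add]
              congr 2
              omega
          _ ≤ (∏ p ∈ (a * b * (a + b)).primeFactors, p) * Q ^ s := Nat.mul_le_mul_left _ h4
          _ ≤ (a + b) * 2 ^ (10 * s ^ 2 + s + 1) := h3
      exact Nat.le_of_mul_le_mul_right h5 (by positivity)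

end Pool.Agent.Helper81.FE
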