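import Mathlib
import Pool.Agent.Helper81.FE.Final

/-!
# The counting theorem for abc-triples with a fixed entry
-/

set_option autoImplicit false

namespace Pool.Agent.Helper81.FE

open Finset

theorem main_count : ∃ X₀ : ℝ, ∀ X : ℝ, X₀ ≤ X → ∀ a : ℕ, 1 ≤ a →
    (a : ℝ) ≤ Real.log X ^ (1 / 200 : ℝ) →
    Real.exp (Real.log (Real.log X) ^ 2 / 1000) ≤
      ({b : ℕ | 0 < b ∧ Nat.Coprime a b ∧ (a : ℝ) + b ≤ X ∧
        ((∏ p ∈ (a * b * (a + b)).primeFactors, p : ℕ) : ℝ) *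
          Real.exp (Real.log (Real.log X) ^ 2 / 1000) ≤ (a : ℝ) + b}.ncard : ℝ) := by
  obtain ⟨E, hE⟩ : ∃ E : ℝ, E = (2 : ℝ) ^ (173 * 35) := ⟨_, rfl⟩
  have hE0 : 0 < E := by
    rw [hE]
    positivity
  refine ⟨Real.exp E, ?_⟩
  intro X hX a ha1 haX
  have hX0 : 0 < X := lt_of_lt_of_le (Real.exp_pos _) hX
  have hlogX : E ≤ Real.log X := by
    rw [Real.le_log_iff_exp_le hX0]
    exact hX
  have hL0 : 0 < Real.log X := lt_of_lt_of_le hE0 hlogX
  have g2 := Real.log_two_lt_d9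
  have g3 := Real.log_two_gt_d9
  have hl2 : 0 < Real.log 2 := by linarith
  obtain ⟨l, hl⟩ : ∃ l : ℝ, l = Real.log (Real.log X) := ⟨_, rfl⟩
  have hlE : 173 * 35 * Real.log 2 ≤ l := by
    rw [hl]
    have h1 : Real.log E ≤ Real.log (Real.log X) := Real.log_le_log hE0 hlogX
    have h2 : Real.log E = 173 * 35 * Real.log 2 := by
      rw [hE, Real.log_pow]
      norm_num
    linarith
  have hl0 : 0 ≤ l := by
    have : 0 ≤ 173 * 35 * Real.log 2 := by positivity
    linarith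
  obtain ⟨s, hs⟩ : ∃ s : ℕ, s = ⌊l / (173 * Real.log 2)⌋₊ := ⟨_, rfl⟩
  have hq0 : 0 ≤ l / (173 * Real.log 2) := by positivity
  have hs1 : (s : ℝ) ≤ l / (173 * Real.log 2) := by
    rw [hs]
    exact Nat.floor_le hq0
  have hs2 : l / (173 * Real.log 2) < s + 1 := by
    rw [hs]
    exact Nat.lt_floor_add_one _
  have hs35 : 35 ≤ s := by
    rw [hs]
    apply Nat.le_floor
    rw [le_div_iff₀ (by positivity)]
    push_cast
    linarith
  rw [le_div_iff₀ (by positivity)] at hs1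
  rw [div_lt_iff₀ (by positivity)] at hs2
  -- 2 ^ (173 s) ≤ log X
  have hpow : (2 : ℝ) ^ (173 * s) ≤ Real.log X := by
    rw [← Real.log_le_log_iff (by positivity) hL0, Real.log_pow, ← hl]
    push_cast
    linarith
  -- a ≤ 2 ^ s
  have hsR : (35 : ℝ) ≤ s := by exact_mod_cast hs35
  have ha : a ≤ 2 ^ s := by
    have haR : (0 : ℝ) < a := by exact_mod_cast ha1
    have h1 : Real.log a ≤ l / 200 := by
      have h2 := Real.log_le_log haR haX
      rw [Real.log_rpow hL0, ← hl] at h2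
      linarith
    have h3 : Real.log a ≤ s * Real.log 2 := by
      have h4 : l ≤ 200 * (s * Real.log 2) := by nlinarith
      linarith
    have h5 : (a : ℝ) ≤ (2 : ℝ) ^ s := by
      rw [← Real.log_le_log_iff haR (by positivity), Real.log_pow]
      exact h3
    exact_mod_cast h5
  obtain ⟨F, hF1, hF2⟩ := count_param s a hs35 ha1 ha
  have hexp := exponent_bound s hs35 l hl0 (by linarith)
  have hq : Real.exp (l ^ 2 / 1000) ≤ (2 : ℝ) ^ (22 * s ^ 2 - s - 1) := by
    have h1 : Real.exp (l ^ 2 / 1000) ≤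
        Real.exp (((22 * s ^ 2 - s - 1 : ℕ) : ℝ) * Real.log 2) := Real.exp_le_exp.mpr hexp
    rw [Real.exp_nat_mul, Real.exp_log (by norm_num)] at h1
    exact h1
  rw [← hl]
  have hcount : (F.card : ℝ) ≤ ({b : ℕ | 0 < b ∧ Nat.Coprime a b ∧ (a : ℝ) + b ≤ X ∧
        ((∏ p ∈ (a * b * (a + b)).primeFactors, p : ℕ) : ℝ) *
          Real.exp (l ^ 2 / 1000) ≤ (a : ℝ) + b}.ncard : ℝ) := by
    rw [← Set.ncard_coe_finset]
    apply Nat.cast_le.mpr
    apply Set.ncard_le_ncard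
    · intro b hb
      obtain ⟨hb0, hcop, hsize, hrad⟩ := hF2 b (Finset.mem_coe.mp hb)
      refine ⟨hb0, hcop, ?_, ?_⟩
      · have h1 : Real.log ((a + b : ℕ) : ℝ) ≤ Real.log X := hsize.trans hpow
        rw [Real.log_le_log_iff (by
          have : 0 < a + b := by omega
          exact_mod_cast this) hX0] at h1
        push_cast at h1
        exact h1
      · have h1 : (((∏ p ∈ (a * b * (a + b)).primeFactors, p) *
            2 ^ (22 * s ^ 2 - s - 1) : ℕ) : ℝ) ≤ ((a + b : ℕ) : ℝ) := by exact_mod_cast hrad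
        rw [Nat.cast_mul, Nat.cast_pow, Nat.cast_add] at h1
        refine le_trans ?_ h1
        apply mul_le_mul_of_nonneg_left _ (Nat.cast_nonneg _)
        exact_mod_cast hq
    · apply Set.Finite.subset (Set.finite_Iic ⌊X⌋₊)
      rintro b ⟨hb0, hcop, hsize, hrad⟩
      simp only [Set.mem_Iic]
      apply Nat.le_floor
      have : (0 : ℝ) ≤ a := Nat.cast_nonneg a
      linarith
  refine le_trans ?_ hcount
  have h1 : (2 : ℝ) ^ (22 * s ^ 2 - s - 1) ≤ (2 : ℝ) ^ (32 * s ^ 2) := by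
    apply pow_le_pow_right₀ (by norm_num)
    omega
  have h2 : (2 : ℝ) ^ (32 * s ^ 2) ≤ (F.card : ℝ) := by exact_mod_cast hF1
  linarith

end Pool.Agent.Helper81.FE
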